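import Pool.Agent.H16DG.Mix

/-!
# Decomposable circuits and projection games
-/

set_option autoImplicit false

open Finset

namespace Pool.Agent.H16DG

open Pool.Agent.U20.DN

variable {A B : Type} [AddCommGroup A] [AddCommGroup B] [Fintype A] [Fintype B] [DecidableEq A]
  [DecidableEq B]

/-- From the bound for tuples to the number of gates. -/
theorem gate_bound {n t : ℕ} {η M : ℝ} (hη : 0 < η) (hM : 1 ≤ M) (ht : 1 ≤ t)
    (ht2 : (t : ℝ) ≤ 387 * M / η ^ 4) (hy2 : 2 ≤ η ^ 2 * n / (32 * t)) {μ s : ℕ}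
    (h : ⌊Real.exp (η ^ 2 * n / (32 * t))⌋₊ ≤ (2 ^ μ * s ^ (2 * t)) ^ t) :
    Real.exp (η ^ 14 * n / (2 ^ 33 * M ^ 3)) ≤ 2 ^ μ * (s : ℝ) := by
  have ht0' : (0 : ℝ) < t := by exact_mod_cast ht
  have hM0 : 0 < M := by linarith
  obtain ⟨y, hy⟩ : ∃ y, y = η ^ 2 * n / (32 * t) := ⟨_, rfl⟩
  rw [← hy] at h hy2
  obtain ⟨s', hs⟩ : ∃ s' : ℝ, s' = 2 ^ μ * (s : ℝ) := ⟨_, rfl⟩
  rw [← hs]
  have hs0 : 0 ≤ s' := by rw [hs]; positivity
  have h1 : Real.exp (y / 2) ≤ s' ^ (2 * t * t) := by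
    refine (exp_le_floor hy2).trans ?_
    have h2 : (⌊Real.exp y⌋₊ : ℝ) ≤ (2 ^ μ * (s : ℝ) ^ (2 * t)) ^ t := by exact_mod_cast h
    refine h2.trans ?_
    rw [pow_mul s']
    refine pow_le_pow_left₀ (by positivity) ?_ t
    rw [hs, mul_pow, ← pow_mul]
    refine mul_le_mul_of_nonneg_right ?_ (by positivity)
    refine pow_le_pow_right₀ (by norm_num) ?_
    exact Nat.le_mul_of_pos_right _ (by omega)
  have h2 : Real.exp (η ^ 14 * n / (2 ^ 33 * M ^ 3)) ^ (2 * t * t) ≤ Real.exp (y / 2) := by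
    rw [← Real.exp_nat_mul, Real.exp_le_exp, hy]
    push_cast
    have h3 : (t : ℝ) ^ 3 ≤ (387 * M / η ^ 4) ^ 3 := pow_le_pow_left₀ ht0'.le ht2 3
    have h4 : η ^ 14 * (t : ℝ) ^ 3 * 128 ≤ 2 ^ 33 * M ^ 3 * η ^ 2 := by
      have h5 : η ^ 14 * (387 * M / η ^ 4) ^ 3 * 128 = 387 ^ 3 * 128 * (M ^ 3 * η ^ 2) := by
        field_simp
      have h6 : η ^ 14 * (t : ℝ) ^ 3 * 128 ≤ η ^ 14 * (387 * M / η ^ 4) ^ 3 * 128 := by
        refine mul_le_mul_of_nonneg_right ?_ (by norm_num)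
        exact mul_le_mul_of_nonneg_left h3 (by positivity)
      rw [h5] at h6
      refine h6.trans ?_
      rw [mul_assoc (2 ^ 33 : ℝ)]
      refine mul_le_mul_of_nonneg_right (by norm_num) (by positivity)
    have h7 : 2 * (t : ℝ) * t * (η ^ 14 * n / (2 ^ 33 * M ^ 3)) =
        (η ^ 14 * (t : ℝ) ^ 3 * 128) * (n / (2 ^ 33 * M ^ 3 * (64 * t))) := by
      field_simp
      ring
    have h8 : η ^ 2 * n / (32 * t) / 2 =
        (2 ^ 33 * M ^ 3 * η ^ 2) * (n / (2 ^ 33 * M ^ 3 * (64 * t))) := by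
      field_simp
      ring
    rw [h7, h8]
    exact mul_le_mul_of_nonneg_right h4 (by positivity)
  have h3 := h2.trans h1
  by_contra hcon
  push Not at hcon
  have h4 := pow_lt_pow_left₀ hcon hs0 (n := 2 * t * t) (by positivity)
  linarith

omit [DecidableEq A] [DecidableEq B] [AddCommGroup B] [Fintype B] in
theorem one_le_M {d : ℕ} (hd : 1 ≤ d) : (1 : ℝ) ≤ 8 * (Fintype.card A : ℝ) * d := by
  have h1 : (1 : ℝ) ≤ Fintype.card A := by
    exact_mod_cast (Fintype.card_pos : 0 < Fintype.card A)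
  have h2 : (1 : ℝ) ≤ d := by exact_mod_cast hd
  nlinarith

/-- The lower bound for decomposable circuits. -/
theorem lower {n : ℕ} {η : ℝ} {d : ℕ} (hη : 0 < η) (hη1 : η ≤ 1) (hd1 : 1 ≤ d)
    (hn : 2 ^ 18 * ((Fintype.card A : ℝ) * d) / η ^ 6 ≤ (n : ℝ))
    (w : Fin n × Fin n → A → B) (hw : FibersAtMost d w)
    (μ : ℕ) (R : Type) [Fintype R] [Nonempty R] (I : R → Type) [∀ ρ, Fintype (I ρ)]
    (G : ∀ ρ, I ρ → Gate (Fin n × Fin n) (A → B) (I ρ)) (r : ∀ ρ, I ρ)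
    (hd : ∀ ρ, Decomposable (G ρ))
    (hno : ∀ ρ x, FibersAtMost d x → ValueAtMost ((d : ℝ) / (Fintype.card A : ℝ) + η) x →
      ¬ Acc (G ρ) x (r ρ))
    (hyes : ∀ (α : Fin n → A) (β : Fin n → B),
      Nat.card R ≤ 2 ^ μ * Nat.card {ρ // Acc (G ρ) (relabel w α β) (r ρ)}) :
    ∃ ρ, Real.exp (η ^ 14 * n / (2 ^ 42 * ((Fintype.card A : ℝ) * d) ^ 3)) ≤
      2 ^ μ * (Fintype.card (I ρ) : ℝ) := by
  classical
  obtain ⟨M, hM⟩ : ∃ M, M = 8 * (Fintype.card A : ℝ) * d := ⟨_, rfl⟩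
  have hM1 : 1 ≤ M := hM ▸ one_le_M hd1
  obtain ⟨θ, t, hθ0, ht0, hn1, hE, ht2, hy2, hmean⟩ := params hη hη1 hM1 (n := n) (by
    refine le_trans (le_of_eq ?_) hn
    rw [hM]
    ring)
  obtain ⟨ρ, hρ⟩ := rand_dnnf μ R I G r hd hθ0 hE
    (U := Fin n → A × B) (zr w : (Fin n → A × B) → Fin n × Fin n → A → B)
    univ (η := 0) (by simp)
    (fun a _ => hyes (fun u => (a u).1) (fun v => (a v).2))
    (N := ⌊Real.exp (η ^ 2 * n / (32 * t))⌋₊) (by
      intro ρ p hp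
      obtain ⟨E, hE1, hE2⟩ := few_mix w hw hη hn1 ht0 (hM ▸ hmean) p hp
      exact ⟨E, fun b hb => hE1 b fun hv => hno ρ _ (fibers_relabel hw p b) hv hb, hE2⟩)
  refine ⟨ρ, ?_⟩
  have h1 := gate_bound hη hM1 ht0 ht2 hy2 (μ := μ) (s := Fintype.card (I ρ))
    (by rwa [add_zero] at hρ)
  refine le_trans (le_of_eq ?_) h1
  rw [hM]
  congr 2
  ring

omit [AddCommGroup A] [AddCommGroup B] [DecidableEq A] [DecidableEq B] in
/-- The trivial circuit. -/
theorem upper (n : ℕ) :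
    ∃ (I : Type) (_ : Fintype I) (G : I → Gate (Fin n × Fin n) (A → B) I) (r : I),
      Decomposable G ∧
        Fintype.card I = Fintype.card A ^ n * Fintype.card B ^ n * (2 * n ^ 2 + 1) + 1 ∧
          ∀ x, Acc G x r ↔ ∃ (L : Fin n → A) (R : Fin n → B), ∀ e, Sat x L R e := by
  obtain ⟨φ, hφ⟩ : ∃ φ : ((Fin n → A) × (Fin n → B)) → Fin n × Fin n → (A → B) → Prop,
      φ = fun s e π => π (s.1 e.1) = s.2 e.2 := ⟨_, rfl⟩
  classical
  refine ⟨UI (Fin n × Fin n) ((Fin n → A) × (Fin n → B)), inferInstance, ub φ, none,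
    ub_decomposable φ, ?_, fun x => ?_⟩
  · rw [card_ui, Fintype.card_prod, Fintype.card_prod, Fintype.card_fun, Fintype.card_fun,
      Fintype.card_fin]
    ring
  · rw [ub_acc, hφ]
    constructor
    · rintro ⟨s, hs⟩
      exact ⟨s.1, s.2, hs⟩
    · rintro ⟨L, R, hs⟩
      exact ⟨(L, R), hs⟩

omit [AddCommGroup B] [AddCommGroup A] [Fintype A] [DecidableEq A] [DecidableEq B] in
/-- Every game has value at least `1 / |B|`. -/
theorem value_ge [Nonempty A] [Nonempty B] {n : ℕ} (hn : 1 ≤ n) {δ : ℝ}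
    (hδ : δ < 1 / (Fintype.card B : ℝ)) (x : Fin n × Fin n → A → B) : ¬ ValueAtMost δ x := by
  classical
  intro hx
  obtain ⟨a⟩ := ‹Nonempty A›
  have hn' : (0 : ℝ) < (n : ℝ) * n := by
    have : (0 : ℝ) < n := by exact_mod_cast hn
    positivity
  have hc : (0 : ℝ) < Fintype.card B := Nat.cast_pos.2 Fintype.card_pos
  have h1 : ∑ c : B, (Nat.card {e // Sat x (fun _ => a) (fun _ => c) e} : ℝ) =
      (n : ℝ) * n := by
    have h2 : ∀ c : B, Nat.card {e // Sat x (fun _ => a) (fun _ => c) e} =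
        (univ.filter (fun e => x e a = c)).card := by
      intro c
      rw [Nat.card_eq_fintype_card, Fintype.card_subtype]
      congr 1
    have h3 : ∑ c : B, Nat.card {e // Sat x (fun _ => a) (fun _ => c) e} = n * n := by
      rw [sum_congr rfl fun c _ => h2 c,
        ← card_eq_sum_card_fiberwise (fun e _ => mem_univ (x e a)), card_univ,
        Fintype.card_prod, Fintype.card_fin]
    exact_mod_cast h3
  have h4 : ∑ c : B, (Nat.card {e // Sat x (fun _ => a) (fun _ => c) e} : ℝ) ≤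
      Fintype.card B * (δ * ((n : ℝ) * n)) := by
    refine (sum_le_sum fun c _ => hx (fun _ => a) (fun _ => c)).trans (le_of_eq ?_)
    rw [sum_const, card_univ, nsmul_eq_mul]
  rw [h1] at h4
  rw [lt_div_iff₀ hc] at hδ
  nlinarith

omit [Fintype A] [Fintype B] [DecidableEq A] [DecidableEq B] in
theorem relabel_sat {n : ℕ} (w : Fin n × Fin n → A → B) (α : Fin n → A) (β : Fin n → B)
    (L : Fin n → A) (R : Fin n → B) (e : Fin n × Fin n) :
    Sat (relabel w α β) L R e ↔ Sat w (fun u => L u - α u) (fun v => R v - β v) e := by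
  show w e (L e.1 - α e.1) + β e.2 = R e.2 ↔ w e (L e.1 - α e.1) = R e.2 - β e.2
  exact eq_sub_iff_add_eq.symm

omit [Fintype A] [Fintype B] [DecidableEq A] [DecidableEq B] in
/-- Relabelings have the same optimum. -/
theorem relabel_optimum {n : ℕ} (w : Fin n × Fin n → A → B) (α : Fin n → A) (β : Fin n → B)
    (k : ℕ) : Optimum k (relabel w α β) ↔ Optimum k w := by
  have h1 : ∀ (L : Fin n → A) (R : Fin n → B), Nat.card {e // Sat (relabel w α β) L R e} =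
      Nat.card {e // Sat w (fun u => L u - α u) (fun v => R v - β v) e} := by
    intro L R
    exact Nat.card_congr (Equiv.subtypeEquivRight fun e => relabel_sat w α β L R e)
  have h2 : ∀ (L : Fin n → A) (R : Fin n → B), Nat.card {e // Sat w L R e} =
      Nat.card {e // Sat (relabel w α β) (fun u => L u + α u) (fun v => R v + β v) e} := by
    intro L R
    rw [h1]
    simp only [add_sub_cancel_right]
  constructor
  · rintro ⟨⟨L, R, h⟩, h'⟩
    exact ⟨⟨_, _, (h1 L R).symm.trans h⟩, fun L R => (h2 L R) ▸ h' _ _⟩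
  · rintro ⟨⟨L, R, h⟩, h'⟩
    exact ⟨⟨_, _, (h2 L R).symm.trans h⟩, fun L R => (h1 L R) ▸ h' _ _⟩

end Pool.Agent.H16DG
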