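import Mathlib.SetTheory.Cardinal.Finite
import Mathlib.Algebra.Group.Defs
import Mathlib.Data.Real.Basic

/-!
# Projection games on complete bipartite graphs
-/

set_option autoImplicit false

namespace Pool.Agent.H16DG

variable {n : ℕ} {A B : Type}

/-- The game `x` on `n + n` vertices: each pair `e = (u, v)` of a vertex `u` with labels in `A` and a
vertex `v` with labels in `B` is an edge with the constraint map `x e`. It is satisfied by the
labelings `L`, `R` if the map sends the label of `u` to the label of `v`. -/
def Sat (x : Fin n × Fin n → A → B) (L : Fin n → A) (R : Fin n → B) (e : Fin n × Fin n) : Prop :=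
  x e (L e.1) = R e.2

/-- Each label has at most `d` preimages. -/
def FibersAtMost (d : ℕ) (x : Fin n × Fin n → A → B) : Prop :=
  ∀ e b, Nat.card {a // x e a = b} ≤ d

/-- Each labeling satisfies at most `δ n ^ 2` edges. -/
def ValueAtMost (δ : ℝ) (x : Fin n × Fin n → A → B) : Prop :=
  ∀ (L : Fin n → A) (R : Fin n → B), (Nat.card {e // Sat x L R e} : ℝ) ≤ δ * ((n : ℝ) * n)

/-- Some labeling satisfies `k` edges, and none satisfies more. -/
def Optimum (k : ℕ) (x : Fin n × Fin n → A → B) : Prop :=
  (∃ (L : Fin n → A) (R : Fin n → B), Nat.card {e // Sat x L R e} = k) ∧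
    ∀ (L : Fin n → A) (R : Fin n → B), Nat.card {e // Sat x L R e} ≤ k

/-- The relabeling of the game `w`: the labels of the vertex `u` are shifted by `α u` and those of
`v` by `β v`. -/
def relabel [AddCommGroup A] [AddCommGroup B] (w : Fin n × Fin n → A → B) (α : Fin n → A)
    (β : Fin n → B) (e : Fin n × Fin n) (a : A) : B :=
  w e (a - α e.1) + β e.2

end Pool.Agent.H16DG
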