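import Mathlib.Data.Fintype.BigOperators
import Mathlib.Algebra.Order.Chebyshev
import Mathlib.Algebra.BigOperators.Field
import Mathlib.Data.Real.Basic
import Mathlib.Tactic.Linarith
import Mathlib.Tactic.Ring
import Mathlib.Tactic.FieldSimp
import Mathlib.Tactic.Positivity
import Mathlib.Tactic.Abel

/-!
# Bilinear forms and four-cycles
-/

set_option autoImplicit false

open Finset

namespace Pool.Agent.H16DG

variable {P Q : Type} [Fintype P] [Fintype Q]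

/-- A bilinear form is bounded by the sum of the kernel over the four-cycles. -/
theorem form_four (K : P → Q → ℝ) (φ : P → ℝ) (ψ : Q → ℝ) :
    (∑ p, ∑ r, φ p * ψ r * K p r) ^ 4 ≤
      (∑ p, φ p ^ 2) ^ 2 * (∑ r, ψ r ^ 2) ^ 2 *
        ∑ p, ∑ p', ∑ r, ∑ r', K p r * K p' r * (K p r' * K p' r') := by
  obtain ⟨S, hS⟩ : ∃ S, S = ∑ p, ∑ r, φ p * ψ r * K p r := ⟨_, rfl⟩
  obtain ⟨a, ha⟩ : ∃ a, a = ∑ p, φ p ^ 2 := ⟨_, rfl⟩
  obtain ⟨b, hb⟩ : ∃ b, b = ∑ r, ψ r ^ 2 := ⟨_, rfl⟩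
  obtain ⟨T, hT⟩ : ∃ T, T = ∑ p, ∑ p', ∑ r, ∑ r', K p r * K p' r * (K p r' * K p' r') :=
    ⟨_, rfl⟩
  obtain ⟨X, hX⟩ : ∃ X, X = ∑ r, (∑ p, φ p * K p r) ^ 2 := ⟨_, rfl⟩
  rw [← hS, ← ha, ← hb, ← hT]
  have hb0 : 0 ≤ b := by rw [hb]; exact sum_nonneg fun r _ => sq_nonneg _
  have h1 : S ^ 2 ≤ b * X := by
    have h2 : S = ∑ r, ψ r * ∑ p, φ p * K p r := by
      rw [hS, sum_comm]
      refine sum_congr rfl fun r _ => ?_
      rw [mul_sum]
      exact sum_congr rfl fun p _ => by ring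
    rw [h2, hb, hX]
    exact sum_mul_sq_le_sq_mul_sq _ _ _
  have h3 : X = ∑ pp : P × P, (φ pp.1 * φ pp.2) * ∑ r, K pp.1 r * K pp.2 r := by
    rw [hX, Fintype.sum_prod_type]
    have h4 : ∀ r, (∑ p, φ p * K p r) ^ 2 =
        ∑ p, ∑ p', (φ p * φ p') * (K p r * K p' r) := by
      intro r
      rw [sq, sum_mul_sum]
      exact sum_congr rfl fun p _ => sum_congr rfl fun p' _ => by ring
    rw [sum_congr rfl fun r _ => h4 r, sum_comm]
    refine sum_congr rfl fun p _ => ?_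
    rw [sum_comm]
    exact sum_congr rfl fun p' _ => by rw [mul_sum]
  have h5 : X ^ 2 ≤ a ^ 2 * T := by
    rw [h3]
    refine (sum_mul_sq_le_sq_mul_sq _ _ _).trans (le_of_eq ?_)
    congr 1
    · rw [Fintype.sum_prod_type, ha, sq (∑ p, φ p ^ 2), sum_mul_sum]
      exact sum_congr rfl fun p _ => sum_congr rfl fun p' _ => by ring
    · rw [Fintype.sum_prod_type, hT]
      refine sum_congr rfl fun p _ => sum_congr rfl fun p' _ => ?_
      rw [sq, sum_mul_sum]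
  calc S ^ 4 = (S ^ 2) ^ 2 := by ring
    _ ≤ (b * X) ^ 2 := pow_le_pow_left₀ (sq_nonneg S) h1 2
    _ = b ^ 2 * X ^ 2 := by ring
    _ ≤ b ^ 2 * (a ^ 2 * T) := mul_le_mul_of_nonneg_left h5 (by positivity)
    _ = _ := by ring

/-- The absolute sum over the four-cycles of labels. -/
theorem cycle_abs {A B : Type} [Fintype A] [Fintype B] (g1 g2 g3 g4 : A → B → ℝ) {c d : ℝ}
    (hd0 : 0 ≤ d)
    (h1 : ∀ x, ∑ y, |g1 x y| ≤ c) (h2 : ∀ y, ∑ x, |g2 x y| ≤ d) (h3 : ∀ x, ∑ y, |g3 x y| ≤ c)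
    (h4 : ∀ x y, |g4 x y| ≤ 1) :
    ∑ x, ∑ x', ∑ y, ∑ y', |g1 x y * g2 x' y * (g3 x y' * g4 x' y')| ≤
      (Fintype.card A : ℝ) * (c * d * c) := by
  have hc0 : ∀ x : A, 0 ≤ c := fun x => (sum_nonneg fun y _ => abs_nonneg (g1 x y)).trans (h1 x)
  have e1 : ∀ x, ∑ x', ∑ y, ∑ y', |g1 x y * g2 x' y * (g3 x y' * g4 x' y')| ≤ c * d * c := by
    intro x
    calc ∑ x', ∑ y, ∑ y', |g1 x y * g2 x' y * (g3 x y' * g4 x' y')|
        ≤ ∑ x', ∑ y, ∑ y', |g1 x y| * |g2 x' y| * |g3 x y'| := by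
          refine sum_le_sum fun x' _ => sum_le_sum fun y _ => sum_le_sum fun y' _ => ?_
          rw [abs_mul, abs_mul, abs_mul]
          refine mul_le_mul_of_nonneg_left ?_ (by positivity)
          exact mul_le_of_le_one_right (abs_nonneg _) (h4 x' y')
      _ = (∑ y, |g1 x y| * ∑ x', |g2 x' y|) * ∑ y', |g3 x y'| := by
          rw [sum_comm, sum_mul]
          refine sum_congr rfl fun y _ => ?_
          rw [mul_assoc, sum_mul_sum, mul_sum]
          refine sum_congr rfl fun x' _ => ?_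
          rw [mul_sum]
          exact sum_congr rfl fun y' _ => by ring
      _ ≤ (∑ y, |g1 x y| * d) * c := by
          refine mul_le_mul ?_ (h3 x) (sum_nonneg fun y' _ => abs_nonneg _) ?_
          · exact sum_le_sum fun y _ => mul_le_mul_of_nonneg_left (h2 y) (abs_nonneg _)
          · exact sum_nonneg fun y _ => mul_nonneg (abs_nonneg _) hd0
      _ ≤ c * d * c := by
          rw [← sum_mul]
          exact mul_le_mul_of_nonneg_right (mul_le_mul_of_nonneg_right (h1 x) hd0) (hc0 x)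
  calc _ ≤ ∑ _x : A, c * d * c := sum_le_sum fun x _ => e1 x
    _ = _ := by rw [sum_const, card_univ, nsmul_eq_mul]

end Pool.Agent.H16DG
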