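import Pool.Agent.H16DG.Form
import Pool.Agent.H16UG.Mcd

/-!
# Relabelings of a game and their mixtures
-/

set_option autoImplicit false

open Finset

namespace Pool.Agent.H16DG

open Pool.Agent.H16UG (av av_mono av_const av_mul card_mul_av sq_av_le BD tail)

variable {A B : Type} [AddCommGroup A] [AddCommGroup B] [Fintype A] [Fintype B] [DecidableEq A]
  [DecidableEq B]

/-- The number of preimages. -/
def fib (π : A → B) (y : B) : ℕ := (univ.filter (fun x => π x = y)).card

/-- The indicator of `π x = y` minus its mean over `x`. -/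
noncomputable def g (π : A → B) (x : A) (y : B) : ℝ :=
  (if π x = y then 1 else 0) - (fib π y : ℝ) / (Fintype.card A : ℝ)

omit [AddCommGroup B] [Fintype B] [DecidableEq A] in
theorem cardA_pos : (0 : ℝ) < Fintype.card A := Nat.cast_pos.2 Fintype.card_pos

omit [AddCommGroup B] [Fintype B] [DecidableEq A] in
theorem sum_g_left (π : A → B) (y : B) : ∑ x, g π x y = 0 := by
  unfold g
  rw [sum_sub_distrib, sum_const, card_univ, nsmul_eq_mul]
  have h1 := cardA_pos (A := A)
  have h2 : ∑ x, (if π x = y then (1 : ℝ) else 0) = fib π y := by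
    unfold fib
    rw [card_filter, Nat.cast_sum]
    exact sum_congr rfl fun x _ => by push_cast; rfl
  rw [h2]
  field_simp
  ring

omit [AddCommGroup A] [AddCommGroup B] [DecidableEq A] in
theorem sum_fib (π : A → B) : ∑ y, (fib π y : ℝ) = Fintype.card A := by
  have h1 : ∑ y, fib π y = Fintype.card A := by
    unfold fib
    rw [← card_eq_sum_card_fiberwise (fun x _ => mem_univ (π x)), card_univ]
  exact_mod_cast h1

omit [AddCommGroup B] [DecidableEq A] in
theorem sum_g_right (π : A → B) (x : A) : ∑ y, g π x y = 0 := by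
  unfold g
  rw [sum_sub_distrib, ← sum_div, sum_fib, sum_ite_eq univ (π x), if_pos (mem_univ _),
    div_self (cardA_pos (A := A)).ne', sub_self]

omit [AddCommGroup B] [Fintype B] [DecidableEq A] in
theorem fib_le (π : A → B) (y : B) : (fib π y : ℝ) / (Fintype.card A : ℝ) ≤ 1 := by
  rw [div_le_one (cardA_pos (A := A))]
  have h1 : fib π y ≤ Fintype.card A := card_le_univ _
  exact_mod_cast h1

omit [AddCommGroup B] [Fintype B] [DecidableEq A] in
theorem abs_g (π : A → B) (x : A) (y : B) : |g π x y| ≤ 1 := by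
  have h1 := fib_le π y
  have h2 : 0 ≤ (fib π y : ℝ) / (Fintype.card A : ℝ) := by positivity
  unfold g
  rw [abs_le]
  split_ifs <;> constructor <;> linarith

omit [AddCommGroup B] [Fintype B] [DecidableEq A] in
theorem abs_g' (π : A → B) (x : A) (y : B) :
    |g π x y| ≤ (if π x = y then 1 else 0) + (fib π y : ℝ) / (Fintype.card A : ℝ) := by
  have h1 := fib_le π y
  have h2 : 0 ≤ (fib π y : ℝ) / (Fintype.card A : ℝ) := by positivity
  unfold g
  rw [abs_le]
  split_ifs <;> constructor <;> linarith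

omit [AddCommGroup B] [DecidableEq A] in
theorem abs_right (π : A → B) (x : A) : ∑ y, |g π x y| ≤ 2 := by
  refine (sum_le_sum fun y _ => abs_g' π x y).trans (le_of_eq ?_)
  rw [sum_add_distrib, ← sum_div, sum_fib, sum_ite_eq univ (π x), if_pos (mem_univ _),
    div_self (cardA_pos (A := A)).ne']
  norm_num

omit [AddCommGroup B] [Fintype B] [DecidableEq A] in
theorem abs_left (π : A → B) {d : ℕ} (hd : ∀ y, fib π y ≤ d) (y : B) :
    ∑ x, |g π x y| ≤ 2 * d := by
  refine (sum_le_sum fun x _ => abs_g' π x y).trans ?_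
  rw [sum_add_distrib, sum_const, card_univ, nsmul_eq_mul]
  have h1 := cardA_pos (A := A)
  have h2 : ∑ x, (if π x = y then (1 : ℝ) else 0) = fib π y := by
    unfold fib
    rw [card_filter, Nat.cast_sum]
    exact sum_congr rfl fun x _ => by push_cast; rfl
  have h3 : (Fintype.card A : ℝ) * ((fib π y : ℝ) / (Fintype.card A : ℝ)) = fib π y := by
    field_simp
  have h4 : (fib π y : ℝ) ≤ d := by exact_mod_cast hd y
  rw [h2, h3]
  linarith

/-- The kernel of the mixture of the relabelings of the game `w` by the labelings `F k`, the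
`k`-th one on the part `k`. -/
noncomputable def K {n t : ℕ} (κ : Fin n → Fin n → Fin t) (w : Fin n → Fin n → A → B)
    (F : Fin t × Fin n → A × B) (p : Fin n × A) (r : Fin n × B) : ℝ :=
  g (w p.1 r.1) (p.2 - (F (κ p.1 r.1, p.1)).1) (r.2 - (F (κ p.1 r.1, r.1)).2)

omit [AddCommGroup A] [AddCommGroup B] [Fintype A] [Fintype B] [DecidableEq A]
  [DecidableEq B] in
theorem sum_shift {ι C X : Type} [AddCommGroup C] [Fintype C] [DecidableEq C] [Fintype X]
    [Nonempty X] [Fintype ι] [DecidableEq ι] (D : (ι → C) → ℝ) (i : ι)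
    (c : X → C) (hD : ∀ F : ι → C, ∑ x, D (F + (Pi.single i (c x) : ι → C)) = 0) :
    ∑ F, D F = 0 := by
  have h1 : ∀ x : X, ∑ F : ι → C, D (F + (Pi.single i (c x) : ι → C)) = ∑ F : ι → C, D F := by
    intro x
    exact Equiv.sum_comp (Equiv.addRight (Pi.single i (c x) : ι → C)) fun F => D F
  have h0 : (0 : ℝ) < Fintype.card X := Nat.cast_pos.2 Fintype.card_pos
  have h2 : (Fintype.card X : ℝ) * ∑ F, D F = 0 := by
    calc (Fintype.card X : ℝ) * ∑ F, D F = ∑ _x : X, ∑ F, D F := by
          rw [sum_const, card_univ, nsmul_eq_mul]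
      _ = ∑ x : X, ∑ F : ι → C, D (F + (Pi.single i (c x) : ι → C)) :=
          sum_congr rfl fun x _ => (h1 x).symm
      _ = ∑ F : ι → C, ∑ x : X, D (F + (Pi.single i (c x) : ι → C)) := sum_comm
      _ = 0 := sum_eq_zero fun F _ => hD F
  rcases mul_eq_zero.1 h2 with h3 | h3
  · exact absurd h3 h0.ne'
  · exact h3

omit [Fintype A] [Fintype B] [DecidableEq A] [DecidableEq B] in
theorem single_snd {ι : Type} [DecidableEq ι] (i j : ι) (x : A) :
    ((Pi.single i ((x, 0) : A × B) : ι → A × B) j).2 = 0 := by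
  rw [Pi.single_apply]
  split_ifs <;> rfl

omit [Fintype A] [Fintype B] [DecidableEq A] [DecidableEq B] in
theorem single_fst {ι : Type} [DecidableEq ι] (i j : ι) (x : B) :
    ((Pi.single i ((0, x) : A × B) : ι → A × B) j).1 = 0 := by
  rw [Pi.single_apply]
  split_ifs <;> rfl

/-- The mean of the product over a four-cycle with opposite edges in different parts is `0`. -/
theorem cyc_zero {n t : ℕ} (κ : Fin n → Fin n → Fin t) (w : Fin n → Fin n → A → B)
    {p p' : Fin n × A} {r r' : Fin n × B} (hu : p.1 ≠ p'.1) (hv : r.1 ≠ r'.1)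
    (hk : κ p.1 r.1 ≠ κ p'.1 r'.1) :
    ∑ F : Fin t × Fin n → A × B,
      K κ w F p r * K κ w F p' r * (K κ w F p r' * K κ w F p' r') = 0 := by
  have hu' := hu.symm
  have hv' := hv.symm
  rcases eq_or_ne (κ p.1 r.1) (κ p'.1 r.1) with h1 | h1
  · -- the left vertex `p'.1`, in the part of the fourth edge
    have h2 : κ p'.1 r.1 ≠ κ p'.1 r'.1 := h1 ▸ hk
    refine sum_shift _ (κ p'.1 r'.1, p'.1) (fun x : A => ((x, 0) : A × B)) fun F => ?_
    have e1 : ∀ x, K κ w (F + Pi.single (κ p'.1 r'.1, p'.1) (x, 0)) p r = K κ w F p r := by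
      intro x
      unfold K
      simp [single_snd, hu]
    have e2 : ∀ x, K κ w (F + Pi.single (κ p'.1 r'.1, p'.1) (x, 0)) p' r = K κ w F p' r := by
      intro x
      unfold K
      simp [h2]
    have e3 : ∀ x, K κ w (F + Pi.single (κ p'.1 r'.1, p'.1) (x, 0)) p r' = K κ w F p r' := by
      intro x
      unfold K
      simp [single_snd, hu]
    have e4 : ∀ x, K κ w (F + Pi.single (κ p'.1 r'.1, p'.1) (x, 0)) p' r' =
        g (w p'.1 r'.1) (p'.2 - (F (κ p'.1 r'.1, p'.1)).1 - x)
          (r'.2 - (F (κ p'.1 r'.1, r'.1)).2) := by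
      intro x
      unfold K
      simp [single_snd, sub_sub]
    simp only [e1, e2, e3, e4]
    rw [← mul_sum, ← mul_sum]
    have h4 : ∑ x, g (w p'.1 r'.1) (p'.2 - (F (κ p'.1 r'.1, p'.1)).1 - x)
        (r'.2 - (F (κ p'.1 r'.1, r'.1)).2) = 0 := by
      rw [← sum_g_left (w p'.1 r'.1) (r'.2 - (F (κ p'.1 r'.1, r'.1)).2)]
      exact Equiv.sum_comp (Equiv.subLeft (p'.2 - (F (κ p'.1 r'.1, p'.1)).1))
        fun x => g (w p'.1 r'.1) x (r'.2 - (F (κ p'.1 r'.1, r'.1)).2)
    rw [h4, mul_zero, mul_zero]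
  · -- the right vertex `r.1`, in the part of the first edge
    refine sum_shift _ (κ p.1 r.1, r.1) (fun x : B => ((0, x) : A × B)) fun F => ?_
    have e1 : ∀ x, K κ w (F + Pi.single (κ p.1 r.1, r.1) (0, x)) p r =
        g (w p.1 r.1) (p.2 - (F (κ p.1 r.1, p.1)).1)
          (r.2 - (F (κ p.1 r.1, r.1)).2 - x) := by
      intro x
      unfold K
      simp [single_fst, sub_sub]
    have e2 : ∀ x, K κ w (F + Pi.single (κ p.1 r.1, r.1) (0, x)) p' r = K κ w F p' r := by
      intro x
      unfold K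
      simp [h1.symm]
    have e3 : ∀ x, K κ w (F + Pi.single (κ p.1 r.1, r.1) (0, x)) p r' = K κ w F p r' := by
      intro x
      unfold K
      simp [single_fst, hv']
    have e4 : ∀ x, K κ w (F + Pi.single (κ p.1 r.1, r.1) (0, x)) p' r' = K κ w F p' r' := by
      intro x
      unfold K
      simp [single_fst, hv']
    simp only [e1, e2, e3, e4]
    have h4 : ∑ x, g (w p.1 r.1) (p.2 - (F (κ p.1 r.1, p.1)).1)
        (r.2 - (F (κ p.1 r.1, r.1)).2 - x) = 0 := by
      rw [← sum_g_right (w p.1 r.1) (p.2 - (F (κ p.1 r.1, p.1)).1)]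
      exact Equiv.sum_comp (Equiv.subLeft (r.2 - (F (κ p.1 r.1, r.1)).2))
        fun y => g (w p.1 r.1) (p.2 - (F (κ p.1 r.1, p.1)).1) y
    rw [← sum_mul, ← sum_mul, h4, zero_mul, zero_mul]

end Pool.Agent.H16DG
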