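import Pool.Agent.H16DG.Ker

/-!
# The mean of the sum over the four-cycles
-/

set_option autoImplicit false

open Finset

namespace Pool.Agent.H16DG

variable {A B : Type} [AddCommGroup A] [AddCommGroup B] [Fintype A] [Fintype B] [DecidableEq A]
  [DecidableEq B]

/-- The number of exceptional four-cycles. -/
theorem bad_le {n t : ℕ} (κ : Fin n → Fin n → Fin t) (M : ℕ)
    (hM : ∀ k, (univ.filter (fun e : Fin n × Fin n => κ e.1 e.2 = k)).card ≤ M) :
    ∑ u : Fin n, ∑ u' : Fin n, ∑ v : Fin n, ∑ v' : Fin n,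
      (((if u = u' then (1 : ℝ) else 0) + (if v = v' then (1 : ℝ) else 0)) +
        (if κ u' v' = κ u v then (1 : ℝ) else 0)) ≤ (n : ℝ) ^ 2 * M + 2 * (n : ℝ) ^ 3 := by
  have h4 : ∑ u : Fin n, ∑ u' : Fin n, ∑ v : Fin n, ∑ v' : Fin n,
      ((if u = u' then (1 : ℝ) else 0) + (if v = v' then (1 : ℝ) else 0)) = 2 * (n : ℝ) ^ 3 := by
    simp only [sum_add_distrib, sum_const, card_univ, Fintype.card_fin, nsmul_eq_mul,
      sum_ite_eq, mem_univ, if_true, ← mul_sum]
    ring
  have h5 : ∑ u : Fin n, ∑ u' : Fin n, ∑ v : Fin n, ∑ v' : Fin n,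
      (if κ u' v' = κ u v then (1 : ℝ) else 0) ≤ (n : ℝ) ^ 2 * M := by
    have h6 : ∀ u v : Fin n, ∑ u' : Fin n, ∑ v' : Fin n,
        (if κ u' v' = κ u v then (1 : ℝ) else 0) ≤ M := by
      intro u v
      have h7 := hM (κ u v)
      have h8 : ∑ u' : Fin n, ∑ v' : Fin n, (if κ u' v' = κ u v then (1 : ℝ) else 0) =
          ((univ.filter (fun e : Fin n × Fin n => κ e.1 e.2 = κ u v)).card : ℝ) := by
        rw [card_filter, Nat.cast_sum, Fintype.sum_prod_type]
        exact sum_congr rfl fun u' _ => sum_congr rfl fun v' _ => by push_cast; rfl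
      rw [h8]
      exact_mod_cast h7
    calc _ = ∑ u : Fin n, ∑ v : Fin n, ∑ u' : Fin n, ∑ v' : Fin n,
          (if κ u' v' = κ u v then (1 : ℝ) else 0) :=
          sum_congr rfl fun u _ => sum_comm
      _ ≤ ∑ _u : Fin n, ∑ _v : Fin n, (M : ℝ) :=
          sum_le_sum fun u _ => sum_le_sum fun v _ => h6 u v
      _ = _ := by
          rw [sum_const, sum_const, card_univ, Fintype.card_fin, nsmul_eq_mul, nsmul_eq_mul]
          ring
  have h9 : ∑ u : Fin n, ∑ u' : Fin n, ∑ v : Fin n, ∑ v' : Fin n,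
      (((if u = u' then (1 : ℝ) else 0) + (if v = v' then (1 : ℝ) else 0)) +
        (if κ u' v' = κ u v then (1 : ℝ) else 0)) =
      (∑ u : Fin n, ∑ u' : Fin n, ∑ v : Fin n, ∑ v' : Fin n,
        ((if u = u' then (1 : ℝ) else 0) + (if v = v' then (1 : ℝ) else 0))) +
      ∑ u : Fin n, ∑ u' : Fin n, ∑ v : Fin n, ∑ v' : Fin n,
        (if κ u' v' = κ u v then (1 : ℝ) else 0) := by
    simp only [← sum_add_distrib]
  rw [h9, h4]
  linarith

theorem comm4 {X Y X' Y' : Type} [Fintype X] [Fintype Y] [Fintype X'] [Fintype Y']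
    (f : X → X' → Y → Y' → ℝ) :
    ∑ x, ∑ x', ∑ y, ∑ y', f x x' y y' = ∑ y, ∑ y', ∑ x, ∑ x', f x x' y y' := by
  calc ∑ x, ∑ x', ∑ y, ∑ y', f x x' y y' = ∑ x, ∑ y, ∑ x', ∑ y', f x x' y y' :=
        sum_congr rfl fun x _ => sum_comm
    _ = ∑ y, ∑ x, ∑ x', ∑ y', f x x' y y' := sum_comm
    _ = ∑ y, ∑ x, ∑ y', ∑ x', f x x' y y' :=
        sum_congr rfl fun y _ => sum_congr rfl fun x _ => sum_comm
    _ = _ := sum_congr rfl fun y _ => sum_comm

theorem reindex {X A' B' : Type} [Fintype X] [Fintype A'] [Fintype B']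
    (f : X → X → X → X → A' → A' → B' → B' → ℝ) :
    ∑ p : X × A', ∑ p' : X × A', ∑ r : X × B', ∑ r' : X × B',
        f p.1 p'.1 r.1 r'.1 p.2 p'.2 r.2 r'.2 =
      ∑ u, ∑ u', ∑ v, ∑ v', ∑ x, ∑ x', ∑ y, ∑ y', f u u' v v' x x' y y' := by
  have e1 : ∀ (u u' : X) (x x' : A'), ∑ r : X × B', ∑ r' : X × B', f u u' r.1 r'.1 x x' r.2 r'.2 =
      ∑ v, ∑ v', ∑ y, ∑ y', f u u' v v' x x' y y' := by
    intro u u' x x'
    rw [Fintype.sum_prod_type]
    refine sum_congr rfl fun v _ => ?_
    calc ∑ y : B', ∑ r' : X × B', f u u' v r'.1 x x' y r'.2 =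
          ∑ y : B', ∑ v', ∑ y', f u u' v v' x x' y y' :=
          sum_congr rfl fun y _ => Fintype.sum_prod_type _
      _ = _ := sum_comm
  calc ∑ p : X × A', ∑ p' : X × A', ∑ r : X × B', ∑ r' : X × B',
        f p.1 p'.1 r.1 r'.1 p.2 p'.2 r.2 r'.2 =
        ∑ p : X × A', ∑ p' : X × A', ∑ v, ∑ v', ∑ y, ∑ y', f p.1 p'.1 v v' p.2 p'.2 y y' :=
        sum_congr rfl fun p _ => sum_congr rfl fun p' _ => e1 _ _ _ _
    _ = ∑ u, ∑ x, ∑ u', ∑ x', ∑ v, ∑ v', ∑ y, ∑ y', f u u' v v' x x' y y' := by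
        rw [Fintype.sum_prod_type]
        exact sum_congr rfl fun u _ => sum_congr rfl fun x _ => Fintype.sum_prod_type _
    _ = ∑ u, ∑ u', ∑ x, ∑ x', ∑ v, ∑ v', ∑ y, ∑ y', f u u' v v' x x' y y' :=
        sum_congr rfl fun u _ => sum_comm
    _ = _ := sum_congr rfl fun u _ => sum_congr rfl fun u' _ => comm4 _

/-- The sum of the kernel over the four-cycles. -/
noncomputable def cyc {n t : ℕ} (κ : Fin n → Fin n → Fin t) (w : Fin n → Fin n → A → B)
    (F : Fin t × Fin n → A × B) : ℝ :=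
  ∑ p, ∑ p', ∑ r, ∑ r', K κ w F p r * K κ w F p' r * (K κ w F p r' * K κ w F p' r')

/-- Its mean is small. -/
theorem sum_cyc_le {n t : ℕ} (κ : Fin n → Fin n → Fin t) (w : Fin n → Fin n → A → B) {d : ℕ}
    (hd : ∀ u v y, fib (w u v) y ≤ d) (M : ℕ)
    (hM : ∀ k, (univ.filter (fun e : Fin n × Fin n => κ e.1 e.2 = k)).card ≤ M) :
    ∑ F : Fin t × Fin n → A × B, cyc κ w F ≤
      (Fintype.card (Fin t × Fin n → A × B) : ℝ) *
        (8 * (Fintype.card A : ℝ) * d * ((n : ℝ) ^ 2 * M + 2 * (n : ℝ) ^ 3)) := by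
  obtain ⟨bad, hbad⟩ : ∃ bad : Fin n → Fin n → Fin n → Fin n → ℝ, bad = fun u u' v v' =>
      (((if u = u' then (1 : ℝ) else 0) + (if v = v' then (1 : ℝ) else 0)) +
        (if κ u' v' = κ u v then (1 : ℝ) else 0)) := ⟨_, rfl⟩
  have hbad0 : ∀ u u' v v', 0 ≤ bad u u' v v' := by
    intro u u' v v'
    rw [hbad]
    dsimp only
    split_ifs <;> norm_num
  obtain ⟨E, hE⟩ : ∃ E : (Fin t × Fin n → A × B) → Fin n → Fin n → Fin n → Fin n →
      A → A → B → B → ℝ, E = fun F u u' v v' x x' y y' =>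
        K κ w F (u, x) (v, y) * K κ w F (u', x') (v, y) *
          (K κ w F (u, x) (v', y') * K κ w F (u', x') (v', y')) := ⟨_, rfl⟩
  have hcyc : ∀ F, cyc κ w F = ∑ u, ∑ u', ∑ v, ∑ v', ∑ x, ∑ x', ∑ y, ∑ y',
      E F u u' v v' x x' y y' := by
    intro F
    rw [← reindex (E F), hE]
    rfl
  -- one four-cycle of vertices
  have h1 : ∀ u u' v v', ∑ F, ∑ x, ∑ x', ∑ y, ∑ y', E F u u' v v' x x' y y' ≤
      (Fintype.card (Fin t × Fin n → A × B) : ℝ) *
        (bad u u' v v' * (8 * (Fintype.card A : ℝ) * d)) := by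
    intro u u' v v'
    have h2 : ∀ F, ∑ x, ∑ x', ∑ y, ∑ y', |E F u u' v v' x x' y y'| ≤
        8 * (Fintype.card A : ℝ) * d := by
      intro F
      have h3 := cycle_abs
        (fun x y => K κ w F (u, x) (v, y)) (fun x y => K κ w F (u', x) (v, y))
        (fun x y => K κ w F (u, x) (v', y)) (fun x y => K κ w F (u', x) (v', y))
        (c := 2) (d := 2 * d) (by positivity)
        (fun x => by
          refine le_trans (le_of_eq ?_) (abs_right (w u v) (x - (F (κ u v, u)).1))
          exact Equiv.sum_comp (Equiv.subRight (F (κ u v, v)).2)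
            fun y => |g (w u v) (x - (F (κ u v, u)).1) y|)
        (fun y => by
          refine le_trans (le_of_eq ?_) (abs_left (w u' v) (hd u' v) (y - (F (κ u' v, v)).2))
          exact Equiv.sum_comp (Equiv.subRight (F (κ u' v, u')).1)
            fun x => |g (w u' v) x (y - (F (κ u' v, v)).2)|)
        (fun x => by
          refine le_trans (le_of_eq ?_) (abs_right (w u v') (x - (F (κ u v', u)).1))
          exact Equiv.sum_comp (Equiv.subRight (F (κ u v', v')).2)
            fun y => |g (w u v') (x - (F (κ u v', u)).1) y|)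
        (fun x y => abs_g _ _ _)
      rw [hE]
      refine h3.trans (le_of_eq (by ring))
    by_cases hgood : u ≠ u' ∧ v ≠ v' ∧ κ u v ≠ κ u' v'
    · obtain ⟨hu, hv, hk⟩ := hgood
      have h4 : ∑ F, ∑ x, ∑ x', ∑ y, ∑ y', E F u u' v v' x x' y y' = 0 := by
        have h5 : ∑ F, ∑ x, ∑ x', ∑ y, ∑ y', E F u u' v v' x x' y y' =
            ∑ x, ∑ x', ∑ y, ∑ y', ∑ F, E F u u' v v' x x' y y' := by
          rw [sum_comm]
          refine sum_congr rfl fun x _ => ?_
          rw [sum_comm]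
          refine sum_congr rfl fun x' _ => ?_
          rw [sum_comm]
          refine sum_congr rfl fun y _ => ?_
          rw [sum_comm]
        rw [h5]
        refine sum_eq_zero fun x _ => sum_eq_zero fun x' _ => sum_eq_zero fun y _ =>
          sum_eq_zero fun y' _ => ?_
        rw [hE]
        exact cyc_zero κ w (p := (u, x)) (p' := (u', x')) (r := (v, y)) (r' := (v', y')) hu hv hk
      rw [h4]
      exact mul_nonneg (Nat.cast_nonneg _) (mul_nonneg (hbad0 _ _ _ _) (by positivity))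
    · have h4 : 1 ≤ bad u u' v v' := by
        rw [hbad]
        dsimp only
        by_cases hu : u = u'
        · rw [if_pos hu]
          split_ifs <;> norm_num
        · by_cases hv : v = v'
          · rw [if_pos hv]
            split_ifs <;> norm_num
          · have hk : κ u' v' = κ u v := by
              by_contra hk
              exact hgood ⟨hu, hv, fun h => hk h.symm⟩
            rw [if_pos hk]
            split_ifs <;> norm_num
      calc ∑ F, ∑ x, ∑ x', ∑ y, ∑ y', E F u u' v v' x x' y y' ≤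
            ∑ _F : Fin t × Fin n → A × B, 8 * (Fintype.card A : ℝ) * d := by
            refine sum_le_sum fun F _ => le_trans ?_ (h2 F)
            exact sum_le_sum fun x _ => sum_le_sum fun x' _ => sum_le_sum fun y _ =>
              sum_le_sum fun y' _ => le_abs_self _
        _ = (Fintype.card (Fin t × Fin n → A × B) : ℝ) * (8 * (Fintype.card A : ℝ) * d) := by
            rw [sum_const, card_univ, nsmul_eq_mul]
        _ ≤ _ := by
            refine mul_le_mul_of_nonneg_left ?_ (Nat.cast_nonneg _)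
            exact le_mul_of_one_le_left (by positivity) h4
  calc ∑ F, cyc κ w F = ∑ u, ∑ u', ∑ v, ∑ v', ∑ F, ∑ x, ∑ x', ∑ y, ∑ y',
        E F u u' v v' x x' y y' := by
        rw [sum_congr rfl fun F _ => hcyc F, sum_comm]
        refine sum_congr rfl fun u _ => ?_
        rw [sum_comm]
        refine sum_congr rfl fun u' _ => ?_
        rw [sum_comm]
        refine sum_congr rfl fun v _ => ?_
        rw [sum_comm]
    _ ≤ ∑ u, ∑ u', ∑ v, ∑ v', (Fintype.card (Fin t × Fin n → A × B) : ℝ) *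
        (bad u u' v v' * (8 * (Fintype.card A : ℝ) * d)) :=
        sum_le_sum fun u _ => sum_le_sum fun u' _ => sum_le_sum fun v _ =>
          sum_le_sum fun v' _ => h1 u u' v v'
    _ = (Fintype.card (Fin t × Fin n → A × B) : ℝ) *
        (8 * (Fintype.card A : ℝ) * d * ∑ u, ∑ u', ∑ v, ∑ v', bad u u' v v') := by
        simp only [← mul_sum, ← sum_mul]
        ring
    _ ≤ _ := by
        refine mul_le_mul_of_nonneg_left ?_ (Nat.cast_nonneg _)
        refine mul_le_mul_of_nonneg_left ?_ (by positivity)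
        rw [hbad]
        exact bad_le κ M hM

end Pool.Agent.H16DG
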