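import Pool.Agent.H16DG.Mean

/-!
# Mixtures of relabelings of a game have small value
-/

set_option autoImplicit false

open Finset

namespace Pool.Agent.H16DG

open Pool.Agent.H16UG (av av_mono av_const av_mul av_sub card_mul_av sq_av_le BD tail)

variable {A B : Type} [AddCommGroup A] [AddCommGroup B] [Fintype A] [Fintype B] [DecidableEq A]
  [DecidableEq B]

/-- The number of edges satisfied by the labeling `s` in the mixture. -/
noncomputable def cnt {n t : ℕ} (κ : Fin n → Fin n → Fin t) (w : Fin n → Fin n → A → B)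
    (F : Fin t × Fin n → A × B) (s : (Fin n → A) × (Fin n → B)) : ℝ :=
  ∑ u, ∑ v, if w u v (s.1 u - (F (κ u v, u)).1) = s.2 v - (F (κ u v, v)).2 then 1 else 0

/-- The maximum over all labelings. -/
noncomputable def mcnt {n t : ℕ} (κ : Fin n → Fin n → Fin t) (w : Fin n → Fin n → A → B)
    (F : Fin t × Fin n → A × B) : ℝ :=
  univ.sup' ⟨((fun _ => 0), fun _ => 0), mem_univ _⟩ (cnt κ w F)

omit [DecidableEq A] in
theorem cnt_le_mcnt {n t : ℕ} (κ : Fin n → Fin n → Fin t) (w : Fin n → Fin n → A → B)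
    (F : Fin t × Fin n → A × B) (s : (Fin n → A) × (Fin n → B)) : cnt κ w F s ≤ mcnt κ w F :=
  le_sup' (cnt κ w F) (mem_univ s)

omit [Fintype A] [Fintype B] [DecidableEq A] in
theorem cnt_step {n t : ℕ} (κ : Fin n → Fin n → Fin t) (w : Fin n → Fin n → A → B)
    (i : Fin t × Fin n) (x y : Fin t × Fin n → A × B)
    (hxy : ∀ j, j ≠ i → x j = y j) (s : (Fin n → A) × (Fin n → B)) :
    cnt κ w x s ≤ cnt κ w y s + 2 * n := by
  have h1 : ∀ u v : Fin n,
      (if w u v (s.1 u - (x (κ u v, u)).1) = s.2 v - (x (κ u v, v)).2 then (1 : ℝ) else 0) -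
      (if w u v (s.1 u - (y (κ u v, u)).1) = s.2 v - (y (κ u v, v)).2 then (1 : ℝ) else 0) ≤
      (if u = i.2 then 1 else 0) + (if v = i.2 then 1 else 0) := by
    intro u v
    by_cases hu : u = i.2
    · rw [if_pos hu]
      split_ifs <;> norm_num
    · by_cases hv : v = i.2
      · rw [if_pos hv]
        split_ifs <;> norm_num
      · have e1 : x (κ u v, u) = y (κ u v, u) := hxy _ fun h => hu (congrArg Prod.snd h)
        have e2 : x (κ u v, v) = y (κ u v, v) := hxy _ fun h => hv (congrArg Prod.snd h)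
        rw [e1, e2, sub_self, if_neg hu, if_neg hv]
        norm_num
  have h2 : ∑ u : Fin n, ∑ v : Fin n,
      ((if u = i.2 then (1 : ℝ) else 0) + (if v = i.2 then 1 else 0)) = 2 * n := by
    simp only [sum_add_distrib, sum_const, card_univ, Fintype.card_fin, nsmul_eq_mul,
      ← mul_sum, sum_ite_eq', mem_univ, if_true, mul_one]
    ring
  have h3 : cnt κ w x s - cnt κ w y s ≤ 2 * n := by
    rw [← h2]
    unfold cnt
    rw [← sum_sub_distrib]
    refine sum_le_sum fun u _ => ?_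
    rw [← sum_sub_distrib]
    exact sum_le_sum fun v _ => h1 u v
  linarith

theorem mcnt_bd {n t : ℕ} (κ : Fin n → Fin n → Fin t) (w : Fin n → Fin n → A → B) :
    BD (mcnt κ w : (Fin t × Fin n → A × B) → ℝ) (2 * n) := by
  have h1 : ∀ (i : Fin t × Fin n) (x y : Fin t × Fin n → A × B), (∀ j, j ≠ i → x j = y j) →
      mcnt κ w x ≤ mcnt κ w y + 2 * n := by
    intro i x y hxy
    refine sup'_le _ _ fun s _ => ?_
    have := cnt_step κ w i x y hxy s
    have := cnt_le_mcnt κ w y s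
    linarith
  intro i x y hxy
  rw [abs_le]
  have h2 := h1 i x y hxy
  have h3 := h1 i y x fun j hj => (hxy j hj).symm
  constructor <;> linarith

/-- The number of satisfied edges is the bilinear form of the kernel, up to the mean. -/
theorem cnt_le {n t : ℕ} (κ : Fin n → Fin n → Fin t) (w : Fin n → Fin n → A → B) {d : ℕ}
    (hd : ∀ u v y, fib (w u v) y ≤ d) (F : Fin t × Fin n → A × B)
    (s : (Fin n → A) × (Fin n → B)) :
    cnt κ w F s ≤ (∑ p : Fin n × A, ∑ r : Fin n × B, (if p.2 = s.1 p.1 then (1 : ℝ) else 0) *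
      (if r.2 = s.2 r.1 then (1 : ℝ) else 0) * K κ w F p r) +
        (d : ℝ) / (Fintype.card A : ℝ) * (n : ℝ) ^ 2 := by
  have h1 : ∑ p : Fin n × A, ∑ r : Fin n × B, (if p.2 = s.1 p.1 then (1 : ℝ) else 0) *
      (if r.2 = s.2 r.1 then (1 : ℝ) else 0) * K κ w F p r =
      ∑ u : Fin n, ∑ v : Fin n, K κ w F (u, s.1 u) (v, s.2 v) := by
    have e1 : ∀ p : Fin n × A, ∑ r : Fin n × B, (if p.2 = s.1 p.1 then (1 : ℝ) else 0) *
        (if r.2 = s.2 r.1 then (1 : ℝ) else 0) * K κ w F p r =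
        (if p.2 = s.1 p.1 then (1 : ℝ) else 0) * ∑ v, K κ w F p (v, s.2 v) := by
      intro p
      rw [Fintype.sum_prod_type, mul_sum]
      refine sum_congr rfl fun v _ => ?_
      dsimp only
      have e2 : ∀ y : B, (if p.2 = s.1 p.1 then (1 : ℝ) else 0) *
          (if y = s.2 v then (1 : ℝ) else 0) * K κ w F p (v, y) =
          if y = s.2 v then (if p.2 = s.1 p.1 then (1 : ℝ) else 0) * K κ w F p (v, y) else 0 := by
        intro y
        split_ifs <;> ring
      rw [sum_congr rfl fun y _ => e2 y, sum_ite_eq' univ (s.2 v), if_pos (mem_univ _)]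
    rw [sum_congr rfl fun p _ => e1 p, Fintype.sum_prod_type]
    refine sum_congr rfl fun u _ => ?_
    dsimp only
    have e3 : ∀ x : A, (if x = s.1 u then (1 : ℝ) else 0) * ∑ v, K κ w F (u, x) (v, s.2 v) =
        if x = s.1 u then ∑ v, K κ w F (u, x) (v, s.2 v) else 0 := by
      intro x
      split_ifs <;> ring
    rw [sum_congr rfl fun x _ => e3 x, sum_ite_eq' univ (s.1 u), if_pos (mem_univ _)]
  rw [h1]
  have h2 : (d : ℝ) / (Fintype.card A : ℝ) * (n : ℝ) ^ 2 =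
      ∑ _u : Fin n, ∑ _v : Fin n, (d : ℝ) / (Fintype.card A : ℝ) := by
    rw [sum_const, sum_const, card_univ, Fintype.card_fin, nsmul_eq_mul, nsmul_eq_mul]
    ring
  rw [h2, ← sum_add_distrib]
  unfold cnt
  refine sum_le_sum fun u _ => ?_
  rw [← sum_add_distrib]
  refine sum_le_sum fun v _ => ?_
  have h3 : (fib (w u v) (s.2 v - (F (κ u v, v)).2) : ℝ) / (Fintype.card A : ℝ) ≤
      (d : ℝ) / (Fintype.card A : ℝ) := by
    refine div_le_div_of_nonneg_right ?_ (Nat.cast_nonneg _)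
    exact_mod_cast hd u v _
  unfold K g
  dsimp only
  linarith

theorem sum_ind {n : ℕ} {X : Type} [Fintype X] [DecidableEq X] (s : Fin n → X) :
    ∑ p : Fin n × X, (if p.2 = s p.1 then (1 : ℝ) else 0) ^ 2 = n := by
  rw [Fintype.sum_prod_type]
  have h1 : ∀ u : Fin n, ∑ x : X, (if x = s u then (1 : ℝ) else 0) ^ 2 = 1 := by
    intro u
    have h2 : ∀ x : X, (if x = s u then (1 : ℝ) else 0) ^ 2 = if x = s u then 1 else 0 := by
      intro x
      split_ifs <;> norm_num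
    rw [sum_congr rfl fun x _ => h2 x, sum_ite_eq' univ (s u), if_pos (mem_univ _)]
  rw [sum_congr rfl fun u _ => h1 u, sum_const, card_univ, Fintype.card_fin, nsmul_eq_mul,
    mul_one]

/-- The mean of the maximum. -/
theorem av_mcnt {n t : ℕ} (κ : Fin n → Fin n → Fin t) (w : Fin n → Fin n → A → B) {d : ℕ}
    (hd : ∀ u v y, fib (w u v) y ≤ d) (M : ℕ)
    (hM : ∀ k, (univ.filter (fun e : Fin n × Fin n => κ e.1 e.2 = k)).card ≤ M) {ρ : ℝ}
    (hρ : 0 ≤ ρ) (h1 : 8 * (Fintype.card A : ℝ) * d * ((n : ℝ) ^ 2 * M + 2 * (n : ℝ) ^ 3) ≤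
      (n : ℝ) ^ 4 * ρ ^ 4) :
    av (mcnt κ w : (Fin t × Fin n → A × B) → ℝ) ≤
      ((d : ℝ) / (Fintype.card A : ℝ) + ρ) * (n : ℝ) ^ 2 := by
  obtain ⟨q, hq⟩ : ∃ q : ℝ, q = (d : ℝ) / (Fintype.card A : ℝ) * (n : ℝ) ^ 2 := ⟨_, rfl⟩
  obtain ⟨φ, hφ⟩ : ∃ φ : (Fin t × Fin n → A × B) → ℝ, φ = fun F => max (mcnt κ w F - q) 0 :=
    ⟨_, rfl⟩
  have h2 : ∀ F : Fin t × Fin n → A × B, φ F ^ 4 ≤ (n : ℝ) ^ 4 * cyc κ w F := by
    intro F
    obtain ⟨s, -, hs⟩ := exists_mem_eq_sup' (s := univ)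
      (⟨((fun _ => 0), fun _ => 0), mem_univ _⟩ :
        (univ : Finset ((Fin n → A) × (Fin n → B))).Nonempty) (cnt κ w F)
    have h3 : mcnt κ w F = cnt κ w F s := hs
    have h4 := cnt_le κ w hd F s
    rw [← hq, ← h3] at h4
    have h5 := form_four (K κ w F) (fun p : Fin n × A => if p.2 = s.1 p.1 then (1 : ℝ) else 0)
      (fun r : Fin n × B => if r.2 = s.2 r.1 then (1 : ℝ) else 0)
    rw [sum_ind, sum_ind] at h5
    have h6 : (n : ℝ) ^ 2 * (n : ℝ) ^ 2 = (n : ℝ) ^ 4 := by ring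
    rw [h6] at h5
    refine le_trans ?_ h5
    rw [hφ]
    dsimp only
    rcases le_total (mcnt κ w F - q) 0 with h7 | h7
    · rw [max_eq_right h7]
      norm_num
      positivity
    · rw [max_eq_left h7]
      exact pow_le_pow_left₀ h7 (by linarith) 4
  have hZ : (0 : ℝ) < Fintype.card (Fin t × Fin n → A × B) := Nat.cast_pos.2 Fintype.card_pos
  have h3 : av φ ^ 4 ≤ ((n : ℝ) ^ 2 * ρ) ^ 4 := by
    calc av φ ^ 4 = (av φ ^ 2) ^ 2 := by ring
      _ ≤ (av fun F => φ F ^ 2) ^ 2 := pow_le_pow_left₀ (sq_nonneg _) (sq_av_le _) 2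
      _ ≤ av fun F => (φ F ^ 2) ^ 2 := sq_av_le _
      _ = av fun F => φ F ^ 4 := by
          congr 1
          funext F
          ring
      _ ≤ av fun F => (n : ℝ) ^ 4 * cyc κ w F := av_mono h2
      _ = (n : ℝ) ^ 4 * av fun F => cyc κ w F := av_mul _ _
      _ ≤ (n : ℝ) ^ 4 *
          (8 * (Fintype.card A : ℝ) * d * ((n : ℝ) ^ 2 * M + 2 * (n : ℝ) ^ 3)) := by
          refine mul_le_mul_of_nonneg_left ?_ (by positivity)
          unfold av
          rw [div_le_iff₀ hZ, mul_comm]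
          exact sum_cyc_le κ w hd M hM
      _ ≤ (n : ℝ) ^ 4 * ((n : ℝ) ^ 4 * ρ ^ 4) := mul_le_mul_of_nonneg_left h1 (by positivity)
      _ = _ := by ring
  have h4 : av φ ≤ (n : ℝ) ^ 2 * ρ := by
    by_contra hcon
    push Not at hcon
    have h4 := pow_lt_pow_left₀ hcon (by positivity) (n := 4) (by norm_num)
    linarith
  have h5 : av (mcnt κ w : (Fin t × Fin n → A × B) → ℝ) - q ≤ av φ := by
    have h6 : av (fun F : Fin t × Fin n → A × B => mcnt κ w F - q) =
        av (mcnt κ w : (Fin t × Fin n → A × B) → ℝ) - q := by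
      rw [av_sub, av_const]
    rw [← h6]
    refine av_mono fun F => ?_
    rw [hφ]
    exact le_max_left _ _
  rw [add_mul, ← hq]
  linarith

/-- Few mixtures have large value. -/
theorem few {n t : ℕ} (hn : 1 ≤ n) (ht : 1 ≤ t) (κ : Fin n → Fin n → Fin t)
    (w : Fin n → Fin n → A → B) {d : ℕ} (hd : ∀ u v y, fib (w u v) y ≤ d) (M : ℕ)
    (hM : ∀ k, (univ.filter (fun e : Fin n × Fin n => κ e.1 e.2 = k)).card ≤ M) {η : ℝ}
    (hη : 0 < η) (h1 : 8 * (Fintype.card A : ℝ) * d * ((n : ℝ) ^ 2 * M + 2 * (n : ℝ) ^ 3) ≤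
      (n : ℝ) ^ 4 * (η / 2) ^ 4)
    (S : Finset (Fin t × Fin n → A × B))
    (hS : ∀ F ∈ S, ((d : ℝ) / (Fintype.card A : ℝ) + η) * (n : ℝ) ^ 2 ≤ mcnt κ w F) :
    (S.card : ℝ) * Real.exp (η ^ 2 * n / (32 * t)) ≤
      Fintype.card (Fin t × Fin n → A × B) := by
  have h2 := av_mcnt κ w hd M hM (by positivity) h1
  have hn' : (0 : ℝ) < n := by exact_mod_cast hn
  have ht' : (0 : ℝ) < t := by exact_mod_cast ht
  have h3 := tail (l := η / (8 * n * t)) (s := η / 2 * (n : ℝ) ^ 2) (by positivity)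
    (mcnt_bd κ w) S (fun F hF => by
      have := hS F hF
      have e1 : ((d : ℝ) / (Fintype.card A : ℝ) + η / 2) * (n : ℝ) ^ 2 + η / 2 * (n : ℝ) ^ 2 =
        ((d : ℝ) / (Fintype.card A : ℝ) + η) * (n : ℝ) ^ 2 := by ring
      linarith)
  have h4 : (η / (8 * n * t)) ^ 2 * (2 * (n : ℝ)) ^ 2 / 2 *
      (Fintype.card (Fin t × Fin n) : ℝ) - η / (8 * n * t) * (η / 2 * (n : ℝ) ^ 2) =
        -(η ^ 2 * n / (32 * t)) := by
    rw [Fintype.card_prod, Fintype.card_fin, Fintype.card_fin]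
    push_cast
    field_simp
    ring
  rw [h4, Real.exp_neg, ← div_eq_mul_inv, le_div_iff₀ (Real.exp_pos _)] at h3
  exact h3

end Pool.Agent.H16DG
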