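import Pool.Agent.H16DG.Defs
import Pool.Agent.H16DG.Val
import Pool.Agent.U20.DN.Engine
import Pool.Agent.U20.DN.Upper
import Mathlib.Algebra.Order.Floor.Semiring

/-!
# Mixtures of relabelings: parameters, and the sets of bad tuples
-/

set_option autoImplicit false

open Finset

namespace Pool.Agent.H16DG

open Pool.Agent.U20.DN

theorem exp_le_floor {y : ℝ} (hy : 2 ≤ y) : Real.exp (y / 2) ≤ (⌊Real.exp y⌋₊ : ℝ) := by
  have h1 := Nat.lt_floor_add_one (Real.exp y)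
  have h2 := Real.add_one_le_exp (y / 2)
  have h3 : Real.exp y = Real.exp (y / 2) ^ 2 := by
    rw [← Real.exp_nat_mul]
    congr 1
    push_cast
    ring
  nlinarith

/-- The size of the parts and their number. -/
theorem params {n : ℕ} {η M : ℝ} (hη : 0 < η) (hη1 : η ≤ 1) (hM : 1 ≤ M)
    (hn : 2 ^ 15 * M / η ^ 6 ≤ (n : ℝ)) :
    ∃ θ t : ℕ, 1 ≤ θ ∧ 1 ≤ t ∧ 1 ≤ n ∧
      3 * Fintype.card (Fin n × Fin n) + 2 * θ ≤ θ * t ∧ (t : ℝ) ≤ 387 * M / η ^ 4 ∧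
      2 ≤ η ^ 2 * n / (32 * t) ∧
      M * ((n : ℝ) ^ 2 * (2 * θ : ℕ) + 2 * (n : ℝ) ^ 3) ≤ (n : ℝ) ^ 4 * (η / 2) ^ 4 := by
  have hM0 : 0 < M := by linarith
  have hη6 : (0 : ℝ) < η ^ 6 := by positivity
  have hη4 : (0 : ℝ) < η ^ 4 := by positivity
  have hη2 : η ^ 2 ≤ 1 := pow_le_one₀ hη.le hη1
  obtain ⟨ζ, hζ⟩ : ∃ ζ, ζ = η ^ 4 / M := ⟨_, rfl⟩
  have hζ0 : 0 < ζ := by rw [hζ]; positivity
  have hζM : ζ * M = η ^ 4 := by rw [hζ]; field_simp
  have hζ1 : ζ ≤ 1 := by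
    rw [hζ, div_le_one hM0]
    have h1 : η ^ 4 ≤ 1 := pow_le_one₀ hη.le hη1
    linarith
  have hn6 : 2 ^ 15 ≤ (n : ℝ) * (η ^ 2 * ζ) := by
    rw [div_le_iff₀ hη6] at hn
    have h1 : (n : ℝ) * η ^ 6 = (n : ℝ) * (η ^ 2 * ζ) * M := by
      have h2 : η ^ 6 = η ^ 2 * (ζ * M) := by rw [hζM]; ring
      rw [h2]
      ring
    rw [h1] at hn
    exact le_of_mul_le_mul_right hn hM0
  have hn4 : 2 ^ 15 ≤ (n : ℝ) * ζ := by
    refine hn6.trans ?_
    refine mul_le_mul_of_nonneg_left ?_ (Nat.cast_nonneg n)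
    exact mul_le_of_le_one_left hζ0.le hη2
  have hn1' : (1 : ℝ) ≤ n := by
    by_contra hcon
    push Not at hcon
    have h2 : (n : ℝ) * ζ ≤ 1 * 1 := mul_le_mul hcon.le hζ1 hζ0.le (by norm_num)
    norm_num at h2 hn4
    linarith
  have hn1 : 1 ≤ n := by exact_mod_cast hn1'
  have hn0 : (0 : ℝ) < n := by linarith
  obtain ⟨θ, hθ⟩ : ∃ θ, θ = ⌊ζ * (n : ℝ) ^ 2 / 64⌋₊ := ⟨_, rfl⟩
  have hθ1 : (θ : ℝ) ≤ ζ * (n : ℝ) ^ 2 / 64 := by
    rw [hθ]
    exact Nat.floor_le (by positivity)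
  have hbig : (2 : ℝ) ≤ ζ * (n : ℝ) ^ 2 / 64 := by
    have h1 : (n : ℝ) * ζ ≤ (n : ℝ) * ζ * n := le_mul_of_one_le_right (by positivity) hn1'
    have h2 : ζ * (n : ℝ) ^ 2 = (n : ℝ) * ζ * n := by ring
    rw [h2]
    norm_num at hn4
    linarith
  have hθ2 : ζ * (n : ℝ) ^ 2 / 128 ≤ θ := by
    have h1 := Nat.lt_floor_add_one (ζ * (n : ℝ) ^ 2 / 64)
    rw [← hθ] at h1
    linarith
  have hθ0 : 1 ≤ θ := by
    have : (1 : ℝ) ≤ θ := by linarith
    exact_mod_cast this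
  obtain ⟨t, ht⟩ : ∃ t, t = ⌈384 / ζ⌉₊ + 2 := ⟨_, rfl⟩
  have ht1 : 384 / ζ ≤ (t : ℝ) - 2 := by
    have h1 := Nat.le_ceil (384 / ζ)
    rw [ht]
    push_cast
    linarith
  have ht2 : (t : ℝ) ≤ 387 / ζ := by
    have h1 := Nat.ceil_lt_add_one (show 0 ≤ 384 / ζ by positivity)
    have h2 : 1 ≤ 1 / ζ := by
      rw [le_div_iff₀ hζ0, one_mul]
      exact hζ1
    have h3 : 387 / ζ = 384 / ζ + 3 * (1 / ζ) := by ring
    rw [ht]
    push_cast
    linarith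
  have ht3 : 387 / ζ = 387 * M / η ^ 4 := by
    rw [hζ]
    field_simp
  have ht0 : 1 ≤ t := by omega
  have ht0' : (0 : ℝ) < t := by exact_mod_cast ht0
  refine ⟨θ, t, hθ0, ht0, hn1, ?_, ht3 ▸ ht2, ?_, ?_⟩
  · rw [Fintype.card_prod, Fintype.card_fin]
    have h1 : (3 * ((n : ℝ) * n) + 2 * θ) ≤ θ * t := by
      have h2 : ζ * (n : ℝ) ^ 2 / 128 * (384 / ζ) ≤ (θ : ℝ) * ((t : ℝ) - 2) :=
        mul_le_mul hθ2 ht1 (by positivity) (Nat.cast_nonneg _)
      have h3 : ζ * (n : ℝ) ^ 2 / 128 * (384 / ζ) = 3 * ((n : ℝ) * n) := by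
        field_simp
        ring
      rw [h3] at h2
      linarith
    exact_mod_cast h1
  · rw [le_div_iff₀ (by positivity)]
    have h1 : 2 * (32 * (t : ℝ)) ≤ 2 * (32 * (387 / ζ)) := by linarith
    refine h1.trans ?_
    rw [← sub_nonneg]
    have h2 : η ^ 2 * (n : ℝ) - 2 * (32 * (387 / ζ)) =
        ((n : ℝ) * (η ^ 2 * ζ) - 24768) / ζ := by
      field_simp
      ring
    rw [h2]
    refine div_nonneg ?_ hζ0.le
    norm_num at hn6
    linarith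
  · have h1 : (n : ℝ) ^ 2 * (2 * θ : ℕ) ≤ (n : ℝ) ^ 2 * (2 * (ζ * (n : ℝ) ^ 2 / 64)) := by
      push_cast
      refine mul_le_mul_of_nonneg_left ?_ (by positivity)
      linarith
    have h2 : 64 * (n : ℝ) ^ 3 ≤ (n : ℝ) ^ 3 * ((n : ℝ) * ζ) := by
      rw [mul_comm (64 : ℝ)]
      refine mul_le_mul_of_nonneg_left ?_ (by positivity)
      norm_num at hn4
      linarith
    have h3 : (n : ℝ) ^ 2 * (2 * θ : ℕ) + 2 * (n : ℝ) ^ 3 ≤ (n : ℝ) ^ 4 * ζ / 16 := by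
      nlinarith
    calc M * ((n : ℝ) ^ 2 * (2 * θ : ℕ) + 2 * (n : ℝ) ^ 3) ≤ M * ((n : ℝ) ^ 4 * ζ / 16) :=
          mul_le_mul_of_nonneg_left h3 hM0.le
      _ = (n : ℝ) ^ 4 * (ζ * M) / 16 := by ring
      _ = _ := by rw [hζM]; ring

variable {A B : Type} [AddCommGroup A] [AddCommGroup B] [Fintype A] [Fintype B] [DecidableEq A]
  [DecidableEq B]

/-- The relabelings. -/
def zr {n : ℕ} (w : Fin n × Fin n → A → B) (a : Fin n → A × B) : Fin n × Fin n → A → B :=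
  relabel w (fun u => (a u).1) (fun v => (a v).2)

omit [AddCommGroup A] [AddCommGroup B] [Fintype B] [DecidableEq A] in
theorem card_fib {n : ℕ} (x : Fin n × Fin n → A → B) (e : Fin n × Fin n) (b : B) :
    Nat.card {a // x e a = b} = fib (x e) b := by
  rw [Nat.card_eq_fintype_card, Fintype.card_subtype]
  rfl

omit [Fintype A] [Fintype B] [DecidableEq A] [DecidableEq B] in
theorem fibers_relabel {n : ℕ} {d : ℕ} {w : Fin n × Fin n → A → B} (hw : FibersAtMost d w)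
    {U : Type} (f : Fin n × Fin n → U) (a : U → Fin n → A × B) :
    FibersAtMost d (fun e => zr w (a (f e)) e) := by
  intro e b
  refine le_trans (le_of_eq ?_) (hw e (b - (a (f e) e.2).2))
  refine Nat.card_congr ((Equiv.subRight (a (f e) e.1).1).subtypeEquiv fun x => ?_)
  show w e (x - (a (f e) e.1).1) + (a (f e) e.2).2 = b ↔ w e (x - (a (f e) e.1).1) = _
  exact eq_sub_iff_add_eq.symm

omit [Fintype A] [Fintype B] [DecidableEq A] in
/-- The number of satisfied edges of a mixture. -/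
theorem card_sat {n t : ℕ} (w : Fin n × Fin n → A → B) (p : Fin n × Fin n → Fin t)
    (b : Fin t → Fin n → A × B) (L : Fin n → A) (R : Fin n → B) :
    (Nat.card {e // Sat (mix p (zr w) b) L R e} : ℝ) =
      cnt (fun u v => p (u, v)) (fun u v => w (u, v)) (fun c => b c.1 c.2) (L, R) := by
  classical
  rw [Nat.card_eq_fintype_card, Fintype.card_subtype, card_filter, Nat.cast_sum,
    Fintype.sum_prod_type]
  unfold cnt
  refine sum_congr rfl fun u _ => sum_congr rfl fun v _ => ?_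
  have h2 : Sat (mix p (zr w) b) L R (u, v) ↔
      w (u, v) (L u - (b (p (u, v)) u).1) = R v - (b (p (u, v)) v).2 := by
    rw [eq_sub_iff_add_eq]
    exact Iff.rfl
  simp only [h2]
  push_cast
  rfl

/-- Few mixtures have large value. -/
theorem few_mix {n : ℕ} (w : Fin n × Fin n → A → B) {d : ℕ} (hw : FibersAtMost d w) {η : ℝ}
    (hη : 0 < η) (hn1 : 1 ≤ n) {θ t : ℕ} (ht : 1 ≤ t)
    (hmean : 8 * (Fintype.card A : ℝ) * d * ((n : ℝ) ^ 2 * (2 * θ : ℕ) + 2 * (n : ℝ) ^ 3) ≤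
      (n : ℝ) ^ 4 * (η / 2) ^ 4)
    (p : Fin n × Fin n → Fin t) (hp : ∀ j, (univ.filter (fun v => p v = j)).card ≤ 2 * θ) :
    ∃ E : Finset (Fin t → Fin n → A × B),
      (∀ b, ¬ ValueAtMost ((d : ℝ) / (Fintype.card A : ℝ) + η) (mix p (zr w) b) → b ∈ E) ∧
        E.card * ⌊Real.exp (η ^ 2 * n / (32 * t))⌋₊ ≤ Fintype.card (Fin n → A × B) ^ t := by
  classical
  have hκ : ∀ k, (univ.filter (fun e : Fin n × Fin n => p (e.1, e.2) = k)).card ≤ 2 * θ :=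
    fun k => hp k
  have hd : ∀ u v y, fib (w (u, v)) y ≤ d := fun u v y => by
    rw [← card_fib]
    exact hw _ _
  obtain ⟨E, hE'⟩ : ∃ E : (Fin t × Fin n → A × B) ≃ (Fin t → Fin n → A × B),
      ∀ b, E.symm b = fun c => b c.1 c.2 := ⟨Equiv.curry _ _ _, fun _ => rfl⟩
  refine ⟨(univ.filter (fun F : Fin t × Fin n → A × B =>
    ((d : ℝ) / (Fintype.card A : ℝ) + η) * (n : ℝ) ^ 2 ≤
      mcnt (fun u v => p (u, v)) (fun u v => w (u, v)) F)).map E.toEmbedding, fun b h1 => ?_, ?_⟩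
  · rw [mem_map]
    refine ⟨E.symm b, ?_, E.apply_symm_apply b⟩
    rw [mem_filter]
    refine ⟨mem_univ _, ?_⟩
    unfold ValueAtMost at h1
    push Not at h1
    obtain ⟨L, R', h2⟩ := h1
    rw [card_sat] at h2
    have h3 := cnt_le_mcnt (fun u v => p (u, v)) (fun u v => w (u, v))
      (fun c : Fin t × Fin n => b c.1 c.2) (L, R')
    rw [hE', sq (n : ℝ)]
    linarith
  · rw [card_map]
    have h1 := few hn1 ht (fun u v => p (u, v)) (fun u v => w (u, v)) hd (2 * θ) hκ hη hmean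
      (univ.filter (fun F : Fin t × Fin n → A × B =>
        ((d : ℝ) / (Fintype.card A : ℝ) + η) * (n : ℝ) ^ 2 ≤
          mcnt (fun u v => p (u, v)) (fun u v => w (u, v)) F))
      (fun F hF => (mem_filter.1 hF).2)
    have h2 : (⌊Real.exp (η ^ 2 * n / (32 * t))⌋₊ : ℝ) ≤ Real.exp (η ^ 2 * n / (32 * t)) :=
      Nat.floor_le (Real.exp_pos _).le
    have h3 := (mul_le_mul_of_nonneg_left h2 (Nat.cast_nonneg _)).trans h1
    have h4 : Fintype.card (Fin t × Fin n → A × B) = Fintype.card (Fin n → A × B) ^ t := by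
      rw [Fintype.card_congr E, Fintype.card_fun (α := Fin t), Fintype.card_fin]
    rw [h4] at h3
    exact_mod_cast h3

end Pool.Agent.H16DG
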