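import Mathlib.Algebra.Group.Fin.Basic
import Mathlib.Algebra.Group.Units.Equiv
import Mathlib.Data.Real.Basic
import Pool.Agent.U20.DG.SseDefs

/-!
# Rotations of lifts, and expansion of all sets of one size
-/

set_option autoImplicit false

namespace Pool.Agent.H16DG

/-- The lift `w` with the layers of the vertex `u` of the left side rotated by `α u`, and those of the
vertex `v` of the right side by `β v` (the layers are the integers modulo `q`). -/
def rotate {n q : ℕ} [NeZero q] (w : Fin n × Fin n → Equiv.Perm (Fin q)) (α β : Fin n → Fin q)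
    (e : Fin n × Fin n) : Equiv.Perm (Fin q) :=
  (Equiv.subRight (α e.1)).trans ((w e).trans (Equiv.addRight (β e.2)))

/-- In the `d`-regular graph `G` all sets `S` of `k` vertices have expansion
`cut G S / (d |S|) ≥ c`. -/
def Expanding {V : Type} (c : ℝ) (G : SimpleGraph V) (d k : ℕ) : Prop :=
  ∀ S : Finset V, S.card = k → c * (d * S.card) ≤ Pool.Agent.U20.DG.cut G S

end Pool.Agent.H16DG
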