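import Pool.Agent.H16DG.Circ
import Pool.Agent.TH700.PA.Density
import Pool.Agent.TH700.PA.Count

/-!
# Read-once tensor networks and projection games
-/

set_option autoImplicit false

open Finset

namespace Pool.Agent.H16DG

open Pool.Agent.TH700.PA (mixp Net rand_density exists_product)

variable {A B : Type} [AddCommGroup A] [AddCommGroup B] [Fintype A] [Fintype B] [DecidableEq A]
  [DecidableEq B]

/-- From the bound for tuples to the bond dimension. -/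
theorem bond_bound {n t : ℕ} {η M : ℝ} (hη : 0 < η) (hη1 : η ≤ 1) (hM : 1 ≤ M) (ht : 1 ≤ t)
    (ht2 : (t : ℝ) ≤ 387 * M / η ^ 4) (hn : 2 ^ 34 * M ^ 3 / η ^ 14 ≤ (n : ℝ))
    (hy2 : 2 ≤ η ^ 2 * n / (32 * t)) {μ w : ℕ}
    (h : ⌊Real.exp (η ^ 2 * n / (32 * t))⌋₊ ≤ (2 ^ (μ + 1) * (t * w ^ 3)) ^ (t + 1)) :
    Real.exp (η ^ 10 * n / (2 ^ 26 * M ^ 2)) ≤ 2 ^ μ * (w : ℝ) := by
  have ht0 : (0 : ℝ) < t := by exact_mod_cast ht
  have hM0 : 0 < M := by linarith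
  obtain ⟨y, hy⟩ : ∃ y, y = η ^ 2 * n / (32 * t) := ⟨_, rfl⟩
  rw [← hy] at h hy2
  obtain ⟨s, hs⟩ : ∃ s : ℝ, s = 2 ^ μ * (w : ℝ) := ⟨_, rfl⟩
  rw [← hs]
  have hs0 : 0 ≤ s := by rw [hs]; positivity
  have ht3 : 8 * (t : ℝ) ^ 2 ≤ y := by
    have h1 : (t : ℝ) ^ 3 ≤ (387 * M / η ^ 4) ^ 3 := pow_le_pow_left₀ ht0.le ht2 3
    have h2 : (387 * M / η ^ 4) ^ 3 = 57960603 * M ^ 3 / η ^ 12 := by
      rw [div_pow, ← pow_mul, mul_pow]
      norm_num
    have h3 : 2 ^ 34 * M ^ 3 / η ^ 12 ≤ η ^ 2 * n := by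
      have h4 := mul_le_mul_of_nonneg_left hn (show 0 ≤ η ^ 2 by positivity)
      have h5 : η ^ 2 * (2 ^ 34 * M ^ 3 / η ^ 14) = 2 ^ 34 * M ^ 3 / η ^ 12 := by
        field_simp
      rwa [h5] at h4
    rw [hy, le_div_iff₀ (by positivity)]
    have h6 : 8 * (t : ℝ) ^ 2 * (32 * t) = 256 * t ^ 3 := by ring
    rw [h6]
    refine le_trans ?_ h3
    rw [h2] at h1
    calc 256 * (t : ℝ) ^ 3 ≤ 256 * (57960603 * M ^ 3 / η ^ 12) := by linarith
      _ = 256 * 57960603 * M ^ 3 / η ^ 12 := by ring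
      _ ≤ 2 ^ 34 * M ^ 3 / η ^ 12 := by
        refine div_le_div_of_nonneg_right ?_ (by positivity)
        exact mul_le_mul_of_nonneg_right (by norm_num) (by positivity)
  have h1 : Real.exp (y / 2) ≤ (2 * t * s ^ 3) ^ (t + 1) := by
    refine (exp_le_floor hy2).trans ?_
    have h2 : (⌊Real.exp y⌋₊ : ℝ) ≤ (2 ^ (μ + 1) * (t * (w : ℝ) ^ 3)) ^ (t + 1) := by
      exact_mod_cast h
    refine h2.trans (pow_le_pow_left₀ (by positivity) ?_ _)
    rw [hs]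
    have h3 : (2 : ℝ) ^ μ ≤ (2 ^ μ) ^ 3 := by
      refine le_self_pow₀ (one_le_pow₀ (by norm_num)) (by norm_num)
    calc (2 : ℝ) ^ (μ + 1) * (t * (w : ℝ) ^ 3) = 2 * t * (2 ^ μ * (w : ℝ) ^ 3) := by
          rw [pow_succ]; ring
      _ ≤ 2 * t * ((2 ^ μ) ^ 3 * (w : ℝ) ^ 3) := by
          refine mul_le_mul_of_nonneg_left ?_ (by positivity)
          exact mul_le_mul_of_nonneg_right h3 (by positivity)
      _ = _ := by rw [mul_pow (2 ^ μ : ℝ)]
  have h2 : (2 * (t : ℝ)) ^ (t + 1) ≤ Real.exp (y / 4) := by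
    have h3 : 2 * (t : ℝ) ≤ Real.exp t := by
      have h4 := Real.quadratic_le_exp_of_nonneg ht0.le
      nlinarith [sq_nonneg ((t : ℝ) - 1)]
    calc (2 * (t : ℝ)) ^ (t + 1) ≤ Real.exp t ^ (t + 1) :=
          pow_le_pow_left₀ (by positivity) h3 _
      _ = Real.exp ((t + 1) * t) := by
          rw [← Real.exp_nat_mul]
          push_cast
          rfl
      _ ≤ _ := by
          rw [Real.exp_le_exp]
          have h4 : (1 : ℝ) ≤ t := by exact_mod_cast ht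
          nlinarith
  have h3 : Real.exp (y / 4) ≤ s ^ (3 * (t + 1)) := by
    have h4 : Real.exp (y / 2) ≤ Real.exp (y / 4) * s ^ (3 * (t + 1)) := by
      refine h1.trans ?_
      rw [mul_pow, ← pow_mul]
      exact mul_le_mul_of_nonneg_right h2 (by positivity)
    have h5 : Real.exp (y / 2) = Real.exp (y / 4) * Real.exp (y / 4) := by
      rw [← Real.exp_add]
      congr 1
      ring
    rw [h5] at h4
    exact le_of_mul_le_mul_left h4 (Real.exp_pos _)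
  have h4 : Real.exp (η ^ 10 * n / (2 ^ 26 * M ^ 2)) ^ (3 * (t + 1)) ≤ Real.exp (y / 4) := by
    rw [← Real.exp_nat_mul, Real.exp_le_exp, hy]
    push_cast
    have h5 : (t : ℝ) + 1 ≤ 388 * M / η ^ 4 := by
      have h6 : 1 ≤ M / η ^ 4 := by
        rw [le_div_iff₀ (by positivity), one_mul]
        exact (pow_le_one₀ hη.le hη1).trans hM
      have h7 : 388 * M / η ^ 4 = 387 * M / η ^ 4 + M / η ^ 4 := by ring
      linarith
    have h6 : (t : ℝ) * (t + 1) ≤ 387 * M / η ^ 4 * (388 * M / η ^ 4) :=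
      mul_le_mul ht2 h5 (by positivity) (by positivity)
    have h7 : η ^ 10 * ((t : ℝ) * (t + 1)) * 384 ≤ 2 ^ 26 * M ^ 2 * η ^ 2 := by
      have h8 : η ^ 10 * (387 * M / η ^ 4 * (388 * M / η ^ 4)) * 384 =
          57659904 * (M ^ 2 * η ^ 2) := by
        field_simp
        ring
      have h9 : η ^ 10 * ((t : ℝ) * (t + 1)) * 384 ≤
          η ^ 10 * (387 * M / η ^ 4 * (388 * M / η ^ 4)) * 384 := by
        refine mul_le_mul_of_nonneg_right ?_ (by norm_num)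
        exact mul_le_mul_of_nonneg_left h6 (by positivity)
      rw [h8] at h9
      refine h9.trans ?_
      rw [mul_assoc (2 ^ 26 : ℝ)]
      exact mul_le_mul_of_nonneg_right (by norm_num) (by positivity)
    have h8 : 3 * ((t : ℝ) + 1) * (η ^ 10 * n / (2 ^ 26 * M ^ 2)) =
        (η ^ 10 * ((t : ℝ) * (t + 1)) * 384) * (n / (2 ^ 26 * M ^ 2 * (128 * t))) := by
      field_simp
      ring
    have h9 : η ^ 2 * n / (32 * t) / 4 =
        (2 ^ 26 * M ^ 2 * η ^ 2) * (n / (2 ^ 26 * M ^ 2 * (128 * t))) := by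
      field_simp
      ring
    rw [h8, h9]
    exact mul_le_mul_of_nonneg_right h7 (by positivity)
  have h5 := h4.trans h3
  by_contra hcon
  push Not at hcon
  have h6 := pow_lt_pow_left₀ hcon hs0 (n := 3 * (t + 1)) (by positivity)
  linarith

theorem n_large {n : ℕ} {η M : ℝ} (hη : 0 < η) (hη1 : η ≤ 1) (hM : 1 ≤ M)
    (hn : 2 ^ 34 * M ^ 3 / η ^ 14 ≤ (n : ℝ)) : 2 ^ 15 * M / η ^ 6 ≤ (n : ℝ) := by
  refine le_trans ?_ hn
  have h1 : η ^ 14 ≤ η ^ 6 := pow_le_pow_of_le_one hη.le hη1 (by norm_num)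
  have h2 : M ≤ M ^ 3 := le_self_pow₀ hM (by norm_num)
  refine div_le_div₀ (by positivity) ?_ (by positivity) h1
  exact mul_le_mul (by norm_num) h2 (by linarith) (by norm_num)

/-- The lower bound for tensor networks. -/
theorem lower_net {n : ℕ} {η : ℝ} {d : ℕ} (hη : 0 < η) (hη1 : η ≤ 1) (hd1 : 1 ≤ d)
    (hn : 2 ^ 43 * ((Fintype.card A : ℝ) * d) ^ 3 / η ^ 14 ≤ (n : ℝ))
    (w : Fin n × Fin n → A → B) (hw : FibersAtMost d w)
    (μ : ℕ) (R : Type) [Fintype R] [Nonempty R] (K W : R → Type) [∀ ρ, Field (K ρ)]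
    [∀ ρ, Fintype (W ρ)] (T : ∀ ρ, Net (K ρ) (Fin n × Fin n) (A → B) (W ρ))
    (c : ∀ ρ, W ρ → K ρ) (h1 : ∀ ρ e, (T ρ).reads e ≤ 1)
    (hno : ∀ ρ x, FibersAtMost d x → ValueAtMost ((d : ℝ) / (Fintype.card A : ℝ) + η) x →
      (T ρ).value (c ρ) x = 0)
    (hyes : ∀ (α : Fin n → A) (β : Fin n → B),
      Nat.card R ≤ 2 ^ μ * Nat.card {ρ // (T ρ).value (c ρ) (relabel w α β) ≠ 0}) :
    ∃ ρ, Real.exp (η ^ 10 * n / (2 ^ 32 * ((Fintype.card A : ℝ) * d) ^ 2)) ≤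
      2 ^ μ * (Fintype.card (W ρ) : ℝ) := by
  classical
  obtain ⟨M, hM⟩ : ∃ M, M = 8 * (Fintype.card A : ℝ) * d := ⟨_, rfl⟩
  have hM1 : 1 ≤ M := hM ▸ one_le_M hd1
  have hn' : 2 ^ 34 * M ^ 3 / η ^ 14 ≤ (n : ℝ) := by
    refine le_trans (le_of_eq ?_) hn
    rw [hM]
    ring
  obtain ⟨θ, t, hθ0, ht0, hn1, hE, ht2, hy2, hmean⟩ := params hη hη1 hM1
    (n_large hη hη1 hM1 hn')
  obtain ⟨ρ, hρ, -⟩ := rand_density μ R K W T c h1 (θ := θ) (t := t) hθ0 ht0 (by omega)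
    (U := Fin n → A × B) (zr w : (Fin n → A × B) → Fin n × Fin n → A → B)
    univ (η := 0) (by simp)
    (fun a _ => hyes (fun u => (a u).1) (fun v => (a v).2))
    (N := ⌊Real.exp (η ^ 2 * n / (32 * t))⌋₊) (by
      intro ρ p hp
      obtain ⟨E, hE1, hE2⟩ := few_mix w hw hη hn1 ht0 (hM ▸ hmean) p hp
      exact ⟨E, fun b hb => hE1 b fun hv => hb (hno ρ _ (fibers_relabel hw p b) hv), hE2⟩)
  refine ⟨ρ, ?_⟩
  have h2 := bond_bound hη hη1 hM1 ht0 ht2 hn' hy2 (μ := μ) (w := Fintype.card (W ρ))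
    (by rwa [add_zero] at hρ)
  refine le_trans (le_of_eq ?_) h2
  rw [hM]
  congr 2
  ring

omit [AddCommGroup A] [AddCommGroup B] [DecidableEq A] [DecidableEq B] in
/-- The trivial network. -/
theorem upper_net {n : ℕ} (hn : 1 ≤ n) :
    ∃ (W : Type) (_ : Fintype W) (T : Net ℚ (Fin n × Fin n) (A → B) W) (c : W → ℚ),
      Fintype.card W = Fintype.card A ^ n * Fintype.card B ^ n ∧
      T.Linear ∧ (∀ e, T.reads e = 1) ∧ T.size = 2 * n ^ 2 - 1 ∧
        ∀ x, T.value c x ≠ 0 ↔ ∃ (L : Fin n → A) (R : Fin n → B), ∀ e, Sat x L R e := by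
  classical
  have : Nonempty (Fin n) := ⟨⟨0, hn⟩⟩
  obtain ⟨T, h1, h2, h3, h4⟩ := exists_product (K := ℚ)
    (fun (e : Fin n × Fin n) (π : A → B) (s : (Fin n → A) × (Fin n → B)) =>
      if π (s.1 e.1) = s.2 e.2 then (1 : ℚ) else 0)
  refine ⟨(Fin n → A) × (Fin n → B), inferInstance, T, fun _ => 1, ?_, h1, h2, ?_, fun x => ?_⟩
  · rw [Fintype.card_prod, Fintype.card_fun, Fintype.card_fun, Fintype.card_fin]
  · rw [h3, Fintype.card_prod, Fintype.card_fin, sq]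
  · have h5 : ∀ s : (Fin n → A) × (Fin n → B), 0 ≤ T.eval x s ∧
        (T.eval x s ≠ 0 ↔ ∀ e, Sat x s.1 s.2 e) := by
      intro s
      rw [h4]
      refine ⟨prod_nonneg fun e _ => by split_ifs <;> norm_num, ?_⟩
      rw [prod_ne_zero_iff]
      constructor
      · intro h e
        by_contra hcon
        exact h e (mem_univ _) (if_neg hcon)
      · intro h e _
        have h6 : x e (s.1 e.1) = s.2 e.2 := h e
        rw [if_pos h6]
        exact one_ne_zero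
    unfold Net.value
    rw [Ne, sum_eq_zero_iff_of_nonneg (fun k _ => by
      rw [one_mul]
      exact (h5 k).1)]
    push Not
    constructor
    · rintro ⟨s, -, hs⟩
      rw [one_mul] at hs
      exact ⟨s.1, s.2, (h5 s).2.1 hs⟩
    · rintro ⟨L, R, h⟩
      refine ⟨(L, R), mem_univ _, ?_⟩
      rw [one_mul]
      exact (h5 (L, R)).2.2 h

end Pool.Agent.H16DG
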