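import Pool.Agent.H16DG.SseVal
import Pool.Agent.H16DG.SseDefs
import Pool.Agent.H16DG.Tensor
import Pool.Agent.U20.DG.Sse
import Mathlib.Combinatorics.SimpleGraph.Maps

/-!
# Small-set expansion of mixtures of rotations of a lift
-/

set_option autoImplicit false

open Finset

namespace Pool.Agent.H16DG

open Pool.Agent.U20.DN
open Pool.Agent.U20.DG (lift cut SomeClosed lift_adj_inl lift_adj_inr)
open Pool.Agent.TH700.PA (mixp Net rand_density exists_product)

variable {n q : ℕ}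

/-- The number of edges inside a set of vertices of the lift. -/
def inner (x : Fin n × Fin n → Equiv.Perm (Fin q)) (S : Finset ((Fin n ⊕ Fin n) × Fin q)) : ℕ :=
  (univ.filter fun p : (Fin n × Fin n) × Fin q =>
    (Sum.inl p.1.1, p.2) ∈ S ∧ (Sum.inr p.1.2, x p.1 p.2) ∈ S).card

/-- The two sides of a set of vertices. -/
def left (S : Finset ((Fin n ⊕ Fin n) × Fin q)) : Finset (Fin n × Fin q) :=
  univ.filter fun p => (Sum.inl p.1, p.2) ∈ S

/-- The two sides of a set of vertices. -/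
def right (S : Finset ((Fin n ⊕ Fin n) × Fin q)) : Finset (Fin n × Fin q) :=
  univ.filter fun p => (Sum.inr p.1, p.2) ∈ S

theorem mem_left {S : Finset ((Fin n ⊕ Fin n) × Fin q)} {p : Fin n × Fin q} :
    p ∈ left S ↔ (Sum.inl p.1, p.2) ∈ S := by
  unfold left
  rw [mem_filter]
  exact ⟨fun h => h.2, fun h => ⟨mem_univ _, h⟩⟩

theorem mem_right {S : Finset ((Fin n ⊕ Fin n) × Fin q)} {p : Fin n × Fin q} :
    p ∈ right S ↔ (Sum.inr p.1, p.2) ∈ S := by
  unfold right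
  rw [mem_filter]
  exact ⟨fun h => h.2, fun h => ⟨mem_univ _, h⟩⟩

theorem card_sides (S : Finset ((Fin n ⊕ Fin n) × Fin q)) :
    (left S).card + (right S).card = S.card := by
  rw [← card_disjSum]
  refine card_bij (fun p _ => match p with
    | Sum.inl a => (Sum.inl a.1, a.2)
    | Sum.inr b => (Sum.inr b.1, b.2)) (fun p hp => ?_) (fun p _ p' _ h => ?_)
    (fun a ha => ?_)
  · rcases mem_disjSum.1 hp with ⟨a, ha, rfl⟩ | ⟨b, hb, rfl⟩
    · exact mem_left.1 ha
    · exact mem_right.1 hb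
  · rcases p with p | p <;> rcases p' with p' | p'
    · simp only [Prod.mk.injEq, Sum.inl.injEq] at h
      exact congrArg _ (Prod.ext h.1 h.2)
    · simp at h
    · simp at h
    · simp only [Prod.mk.injEq, Sum.inr.injEq] at h
      exact congrArg _ (Prod.ext h.1 h.2)
  · obtain ⟨v | v, i⟩ := a
    · exact ⟨Sum.inl (v, i), by simp [mem_left, ha], rfl⟩
    · exact ⟨Sum.inr (v, i), by simp [mem_right, ha], rfl⟩

/-- The number of edges which leave a set of vertices. -/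
theorem cut_ge (x : Fin n × Fin n → Equiv.Perm (Fin q))
    (S : Finset ((Fin n ⊕ Fin n) × Fin q)) :
    n * S.card ≤ cut (lift x) S + 2 * inner x S := by
  classical
  obtain ⟨EA, hEA⟩ : ∃ E : Finset ((Fin n × Fin n) × Fin q),
      E = univ.filter fun p => (Sum.inl p.1.1, p.2) ∈ S := ⟨_, rfl⟩
  obtain ⟨EB, hEB⟩ : ∃ E : Finset ((Fin n × Fin n) × Fin q),
      E = univ.filter fun p => (Sum.inr p.1.2, x p.1 p.2) ∈ S := ⟨_, rfl⟩
  have cA : n * (left S).card ≤ EA.card := by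
    have h1 : (univ ×ˢ left S : Finset (Fin n × (Fin n × Fin q))).card = n * (left S).card := by
      rw [card_product, card_univ, Fintype.card_fin]
    rw [← h1]
    refine card_le_card_of_injOn (fun p => ((p.2.1, p.1), p.2.2)) (fun p hp => ?_)
      (fun p _ p' _ h => ?_)
    · rw [mem_coe, mem_product] at hp
      rw [mem_coe, hEA, mem_filter]
      exact ⟨mem_univ _, mem_left.1 hp.2⟩
    · simp only [Prod.mk.injEq] at h
      exact Prod.ext h.1.2 (Prod.ext h.1.1 h.2)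
  have cB : n * (right S).card ≤ EB.card := by
    have h1 : (univ ×ˢ right S : Finset (Fin n × (Fin n × Fin q))).card =
        n * (right S).card := by
      rw [card_product, card_univ, Fintype.card_fin]
    rw [← h1]
    refine card_le_card_of_injOn (fun p => ((p.1, p.2.1), (x (p.1, p.2.1)).symm p.2.2))
      (fun p hp => ?_) (fun p _ p' _ h => ?_)
    · rw [mem_coe, mem_product] at hp
      rw [mem_coe, hEB, mem_filter]
      refine ⟨mem_univ _, ?_⟩
      show (Sum.inr p.2.1, x (p.1, p.2.1) ((x (p.1, p.2.1)).symm p.2.2)) ∈ S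
      rw [Equiv.apply_symm_apply]
      exact mem_right.1 hp.2
    · obtain ⟨u, v, j⟩ := p
      obtain ⟨u', v', j'⟩ := p'
      simp only [Prod.mk.injEq] at h
      obtain ⟨⟨rfl, rfl⟩, h3⟩ := h
      rw [(x (u, v)).symm.injective h3]
  have hJ : inner x S = (EA ∩ EB).card := by
    unfold inner
    rw [hEA, hEB, ← filter_and]
  have hcut : (EA \ EB).card + (EB \ EA).card ≤ cut (lift x) S := by
    unfold cut
    rw [Nat.card_eq_fintype_card, Fintype.card_subtype, ← card_disjSum]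
    refine card_le_card_of_injOn (fun p => match p with
      | Sum.inl a => ((Sum.inl a.1.1, a.2), (Sum.inr a.1.2, x a.1 a.2))
      | Sum.inr a => ((Sum.inr a.1.2, x a.1 a.2), (Sum.inl a.1.1, a.2))) (fun p hp => ?_)
      (fun p _ p' _ h => ?_)
    · rcases mem_disjSum.1 (mem_coe.1 hp) with ⟨a, ha, rfl⟩ | ⟨a, ha, rfl⟩
      · rw [mem_sdiff, hEA, hEB, mem_filter, mem_filter] at ha
        rw [mem_coe, mem_filter]
        exact ⟨mem_univ _, ha.1.2, fun hc => ha.2 ⟨mem_univ _, hc⟩,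
          lift_adj_inl.2 ⟨a.1.2, rfl⟩⟩
      · rw [mem_sdiff, hEA, hEB, mem_filter, mem_filter] at ha
        rw [mem_coe, mem_filter]
        refine ⟨mem_univ _, ha.1.2, fun hc => ha.2 ⟨mem_univ _, hc⟩,
          lift_adj_inr.2 ⟨a.1.1, ?_⟩⟩
        show (Sum.inl a.1.1, a.2) = (Sum.inl a.1.1, (x (a.1.1, a.1.2)).symm (x a.1 a.2))
        rw [Prod.mk.eta, Equiv.symm_apply_apply]
    · rcases p with p | p <;> rcases p' with p' | p'
      · simp only [Prod.mk.injEq, Sum.inl.injEq, Sum.inr.injEq] at h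
        exact congrArg _ (Prod.ext (Prod.ext h.1.1 h.2.1) h.1.2)
      · simp at h
      · simp at h
      · simp only [Prod.mk.injEq, Sum.inl.injEq, Sum.inr.injEq] at h
        exact congrArg _ (Prod.ext (Prod.ext h.2.1 h.1.1) h.2.2)
  have hcA : (EA \ EB).card + inner x S = EA.card := by
    rw [hJ]; exact card_sdiff_add_card_inter EA EB
  have hcB : (EB \ EA).card + inner x S = EB.card := by
    rw [hJ, inter_comm]; exact card_sdiff_add_card_inter EB EA
  have h1 : n * S.card = n * (left S).card + n * (right S).card := by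
    rw [← card_sides S]; ring
  omega

/-- The rotations. -/
def zs [NeZero q] (w : Fin n × Fin n → Equiv.Perm (Fin q)) (a : Fin n → Fin q × Fin q) :
    Fin n × Fin n → Equiv.Perm (Fin q) :=
  rotate w (fun u => (a u).1) (fun v => (a v).2)

theorem zs_apply [NeZero q] (w : Fin n × Fin n → Equiv.Perm (Fin q))
    (a : Fin n → Fin q × Fin q) (e : Fin n × Fin n) (i : Fin q) :
    zs w a e i = w e (i - (a e.1).1) + (a e.2).2 := rfl

/-- The edges of a mixture inside a set. -/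
theorem inner_le [NeZero q] {t : ℕ} (w : Fin n × Fin n → Equiv.Perm (Fin q))
    (p : Fin n × Fin n → Fin t) (b : Fin t → Fin n → Fin q × Fin q)
    (S : Finset ((Fin n ⊕ Fin n) × Fin q)) :
    (inner (mix p (zs w) b) S : ℝ) ≤
      cntS (fun u v => p (u, v)) (fun u v => ⇑(w (u, v))) (fun c => b c.1 c.2)
        (left S, right S) := by
  classical
  have h1 : cntS (fun u v => p (u, v)) (fun u v => ⇑(w (u, v))) (fun c => b c.1 c.2)
      (left S, right S) = (((left S ×ˢ right S).filter fun s =>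
        w (s.1.1, s.2.1) (s.1.2 - (b (p (s.1.1, s.2.1)) s.1.1).1) =
          s.2.2 - (b (p (s.1.1, s.2.1)) s.2.1).2).card : ℝ) := by
    unfold cntS ind
    rw [← sum_product', sum_boole]
  rw [h1, Nat.cast_le]
  unfold inner
  refine card_le_card_of_injOn
    (fun s => ((s.1.1, s.2), (s.1.2, mix p (zs w) b s.1 s.2))) (fun s hs => ?_)
    (fun s _ s' _ h => ?_)
  · rw [mem_coe, mem_filter] at hs
    rw [mem_coe, mem_filter, mem_product]
    refine ⟨⟨mem_left.2 hs.2.1, mem_right.2 hs.2.2⟩, ?_⟩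
    rw [eq_sub_iff_add_eq]
    rfl
  · obtain ⟨⟨u, v⟩, i⟩ := s
    obtain ⟨⟨u', v'⟩, i'⟩ := s'
    simp only [Prod.mk.injEq] at h
    obtain ⟨⟨rfl, rfl⟩, rfl, -⟩ := h
    rfl

theorem fib_perm (π : Equiv.Perm (Fin q)) (y : Fin q) : fib (⇑π) y ≤ 1 := by
  unfold fib
  rw [card_le_one]
  intro a ha b hb
  rw [mem_filter] at ha hb
  exact π.injective (ha.2.trans hb.2.symm)

/-- Few mixtures have a set of `2 n m` vertices with small expansion. -/
theorem few_mixS [NeZero q] (w : Fin n × Fin n → Equiv.Perm (Fin q)) {m : ℕ} (hm : 1 ≤ m)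
    {η : ℝ} (hη : 0 < η) (hn1 : 1 ≤ n) {θ t : ℕ} (ht : 1 ≤ t)
    (hmean : 8 * (Fintype.card (Fin q) : ℝ) * (1 : ℕ) *
      ((n : ℝ) ^ 2 * (2 * θ : ℕ) + 2 * (n : ℝ) ^ 3) ≤ (n : ℝ) ^ 4 * (η / 2) ^ 4)
    (p : Fin n × Fin n → Fin t) (hp : ∀ j, (univ.filter (fun v => p v = j)).card ≤ 2 * θ) :
    ∃ E : Finset (Fin t → Fin n → Fin q × Fin q),
      (∀ b, ¬ Expanding (1 - (m : ℝ) / q - η) (lift (mix p (zs w) b)) n (2 * (n * m)) → b ∈ E) ∧
        E.card * ⌊Real.exp (η ^ 2 * n / (32 * t))⌋₊ ≤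
          Fintype.card (Fin n → Fin q × Fin q) ^ t := by
  classical
  have hκ : ∀ k, (univ.filter (fun e : Fin n × Fin n => p (e.1, e.2) = k)).card ≤ 2 * θ :=
    fun k => hp k
  have hd : ∀ u v y, fib (⇑(w (u, v))) y ≤ 1 := fun u v y => fib_perm _ _
  have hq0 : (0 : ℝ) < q := by exact_mod_cast Nat.pos_of_ne_zero (NeZero.ne q)
  obtain ⟨E, hE'⟩ : ∃ E : (Fin t × Fin n → Fin q × Fin q) ≃ (Fin t → Fin n → Fin q × Fin q),
      ∀ b, E.symm b = fun c => b c.1 c.2 := ⟨Equiv.curry _ _ _, fun _ => rfl⟩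
  refine ⟨(univ.filter (fun F : Fin t × Fin n → Fin q × Fin q =>
    1 / (Fintype.card (Fin q) : ℝ) * ((n * m : ℕ) : ℝ) ^ 2 + η * (n * ((n * m : ℕ) : ℝ)) ≤
      mS (n * m) (fun u v => p (u, v)) (fun u v => ⇑(w (u, v))) F)).map E.toEmbedding,
    fun b h1 => ?_, ?_⟩
  · rw [mem_map]
    refine ⟨E.symm b, ?_, E.apply_symm_apply b⟩
    rw [mem_filter]
    refine ⟨mem_univ _, ?_⟩
    unfold Expanding at h1
    push Not at h1
    obtain ⟨S, hS, h2⟩ := h1
    have h3 := cntS_le_mS (k := n * m) (fun u v => p (u, v)) (fun u v => ⇑(w (u, v)))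
      (fun c : Fin t × Fin n => b c.1 c.2) (s := (left S, right S))
      (by rw [← hS]; exact (card_sides S).le)
    have h4 := inner_le w p b S
    have h5 : ((n * S.card : ℕ) : ℝ) ≤
        ((cut (lift (mix p (zs w) b)) S + 2 * inner (mix p (zs w) b) S : ℕ) : ℝ) :=
      Nat.cast_le.2 (cut_ge _ _)
    rw [hE', Fintype.card_fin]
    rw [hS] at h2 h5
    push_cast at h2 h5 ⊢
    have h6 : 1 / (q : ℝ) * ((n : ℝ) * m) ^ 2 = (m : ℝ) / q * (n * (n * m)) := by
      field_simp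
    rw [h6]
    nlinarith
  · rw [card_map]
    have h1 := fewS hn1 (k := n * m) (Nat.mul_pos hn1 hm) ht (fun u v => p (u, v))
      (fun u v => ⇑(w (u, v))) hd (2 * θ) hκ hη hmean
      (univ.filter (fun F : Fin t × Fin n → Fin q × Fin q =>
        1 / (Fintype.card (Fin q) : ℝ) * ((n * m : ℕ) : ℝ) ^ 2 + η * (n * ((n * m : ℕ) : ℝ)) ≤
          mS (n * m) (fun u v => p (u, v)) (fun u v => ⇑(w (u, v))) F))
      (fun F hF => (mem_filter.1 hF).2)
    have h2 : (⌊Real.exp (η ^ 2 * n / (32 * t))⌋₊ : ℝ) ≤ Real.exp (η ^ 2 * n / (32 * t)) :=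
      Nat.floor_le (Real.exp_pos _).le
    have h3 := (mul_le_mul_of_nonneg_left h2 (Nat.cast_nonneg _)).trans h1
    have h4 : Fintype.card (Fin t × Fin n → Fin q × Fin q) =
        Fintype.card (Fin n → Fin q × Fin q) ^ t := by
      rw [Fintype.card_congr E, Fintype.card_fun (α := Fin t), Fintype.card_fin]
    rw [h4] at h3
    exact_mod_cast h3

/-- The lower bound for decomposable circuits. -/
theorem lower_sse [NeZero q] {m : ℕ} {η : ℝ} (hη : 0 < η) (hη1 : η ≤ 1) (hm : 1 ≤ m)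
    (hn : 2 ^ 18 * (q : ℝ) / η ^ 6 ≤ (n : ℝ)) (w : Fin n × Fin n → Equiv.Perm (Fin q))
    (μ : ℕ) (R : Type) [Fintype R] [Nonempty R] (I : R → Type) [∀ ρ, Fintype (I ρ)]
    (G : ∀ ρ, I ρ → Gate (Fin n × Fin n) (Equiv.Perm (Fin q)) (I ρ)) (r : ∀ ρ, I ρ)
    (hd : ∀ ρ, Decomposable (G ρ))
    (hno : ∀ ρ x, Expanding (1 - (m : ℝ) / q - η) (lift x) n (2 * (n * m)) →
      ¬ Acc (G ρ) x (r ρ))
    (hyes : ∀ α β : Fin n → Fin q,
      Nat.card R ≤ 2 ^ μ * Nat.card {ρ // Acc (G ρ) (rotate w α β) (r ρ)}) :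
    ∃ ρ, Real.exp (η ^ 14 * n / (2 ^ 42 * (q : ℝ) ^ 3)) ≤
      2 ^ μ * (Fintype.card (I ρ) : ℝ) := by
  classical
  obtain ⟨M, hM⟩ : ∃ M, M = 8 * (Fintype.card (Fin q) : ℝ) * (1 : ℕ) := ⟨_, rfl⟩
  have hM1 : 1 ≤ M := hM ▸ one_le_M (A := Fin q) le_rfl
  obtain ⟨θ, t, hθ0, ht0, hn1, hE, ht2, hy2, hmean⟩ := params hη hη1 hM1 (n := n) (by
    refine le_trans (le_of_eq ?_) hn
    rw [hM, Fintype.card_fin]
    push_cast
    ring)
  obtain ⟨ρ, hρ⟩ := rand_dnnf μ R I G r hd hθ0 hE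
    (U := Fin n → Fin q × Fin q) (zs w) univ (η := 0) (by simp)
    (fun a _ => hyes (fun u => (a u).1) (fun v => (a v).2))
    (N := ⌊Real.exp (η ^ 2 * n / (32 * t))⌋₊) (by
      intro ρ p hp
      obtain ⟨E, hE1, hE2⟩ := few_mixS w hm hη hn1 ht0 (hM ▸ hmean) p hp
      exact ⟨E, fun b hb => hE1 b fun hv => hno ρ _ hv hb, hE2⟩)
  refine ⟨ρ, ?_⟩
  have h1 := gate_bound hη hM1 ht0 ht2 hy2 (μ := μ) (s := Fintype.card (I ρ))
    (by rwa [add_zero] at hρ)
  refine le_trans (le_of_eq ?_) h1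
  rw [hM, Fintype.card_fin]
  congr 2
  push_cast
  ring

/-- The lower bound for tensor networks. -/
theorem lower_sse_net [NeZero q] {m : ℕ} {η : ℝ} (hη : 0 < η) (hη1 : η ≤ 1) (hm : 1 ≤ m)
    (hn : 2 ^ 43 * (q : ℝ) ^ 3 / η ^ 14 ≤ (n : ℝ)) (w : Fin n × Fin n → Equiv.Perm (Fin q))
    (μ : ℕ) (R : Type) [Fintype R] [Nonempty R] (K W : R → Type) [∀ ρ, Field (K ρ)]
    [∀ ρ, Fintype (W ρ)] (T : ∀ ρ, Net (K ρ) (Fin n × Fin n) (Equiv.Perm (Fin q)) (W ρ))
    (c : ∀ ρ, W ρ → K ρ) (h1 : ∀ ρ e, (T ρ).reads e ≤ 1)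
    (hno : ∀ ρ x, Expanding (1 - (m : ℝ) / q - η) (lift x) n (2 * (n * m)) →
      (T ρ).value (c ρ) x = 0)
    (hyes : ∀ α β : Fin n → Fin q,
      Nat.card R ≤ 2 ^ μ * Nat.card {ρ // (T ρ).value (c ρ) (rotate w α β) ≠ 0}) :
    ∃ ρ, Real.exp (η ^ 10 * n / (2 ^ 32 * (q : ℝ) ^ 2)) ≤
      2 ^ μ * (Fintype.card (W ρ) : ℝ) := by
  classical
  obtain ⟨M, hM⟩ : ∃ M, M = 8 * (Fintype.card (Fin q) : ℝ) * (1 : ℕ) := ⟨_, rfl⟩
  have hM1 : 1 ≤ M := hM ▸ one_le_M (A := Fin q) le_rfl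
  have hn' : 2 ^ 34 * M ^ 3 / η ^ 14 ≤ (n : ℝ) := by
    refine le_trans (le_of_eq ?_) hn
    rw [hM, Fintype.card_fin]
    push_cast
    ring
  obtain ⟨θ, t, hθ0, ht0, hn1, hE, ht2, hy2, hmean⟩ := params hη hη1 hM1
    (n_large hη hη1 hM1 hn')
  obtain ⟨ρ, hρ, -⟩ := rand_density μ R K W T c h1 (θ := θ) (t := t) hθ0 ht0 (by omega)
    (U := Fin n → Fin q × Fin q) (zs w) univ (η := 0) (by simp)
    (fun a _ => hyes (fun u => (a u).1) (fun v => (a v).2))
    (N := ⌊Real.exp (η ^ 2 * n / (32 * t))⌋₊) (by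
      intro ρ p hp
      obtain ⟨E, hE1, hE2⟩ := few_mixS w hm hη hn1 ht0 (hM ▸ hmean) p hp
      exact ⟨E, fun b hb => hE1 b fun hv => hb (hno ρ _ hv), hE2⟩)
  refine ⟨ρ, ?_⟩
  have h2 := bond_bound hη hη1 hM1 ht0 ht2 hn' hy2 (μ := μ) (w := Fintype.card (W ρ))
    (by rwa [add_zero] at hρ)
  refine le_trans (le_of_eq ?_) h2
  rw [hM, Fintype.card_fin]
  congr 2
  push_cast
  ring

/-- Rotations are isomorphic. -/
theorem rotate_iso [NeZero q] (w : Fin n × Fin n → Equiv.Perm (Fin q)) (α β : Fin n → Fin q) :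
    Nonempty (lift w ≃g lift (rotate w α β)) := by
  obtain ⟨f, hf⟩ : ∃ f : Fin n ⊕ Fin n → Fin q, f = Sum.elim α β := ⟨_, rfl⟩
  refine ⟨⟨⟨fun a => (a.1, a.2 + f a.1), fun a => (a.1, a.2 - f a.1), fun a => ?_,
    fun a => ?_⟩, ?_⟩⟩
  · simp
  · simp
  · intro a b
    subst hf
    obtain ⟨u | v, i⟩ := a
    · show (lift (rotate w α β)).Adj (Sum.inl u, i + α u) (b.1, b.2 + Sum.elim α β b.1) ↔
        (lift w).Adj (Sum.inl u, i) b
      rw [lift_adj_inl, lift_adj_inl]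
      refine exists_congr fun v => ?_
      have h1 : rotate w α β (u, v) (i + α u) = w (u, v) i + β v := by
        show w (u, v) (i + α u - α u) + β v = _
        rw [add_sub_cancel_right]
      rw [h1]
      constructor
      · intro h
        rw [Prod.mk.injEq] at h
        obtain ⟨h2, h3⟩ := h
        rw [h2] at h3
        exact Prod.ext h2 (add_right_cancel h3)
      · rintro rfl
        rfl
    · show (lift (rotate w α β)).Adj (Sum.inr v, i + β v) (b.1, b.2 + Sum.elim α β b.1) ↔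
        (lift w).Adj (Sum.inr v, i) b
      rw [lift_adj_inr, lift_adj_inr]
      refine exists_congr fun u => ?_
      have h1 : (rotate w α β (u, v)).symm (i + β v) = (w (u, v)).symm i + α u := by
        rw [Equiv.symm_apply_eq]
        show _ = w (u, v) ((w (u, v)).symm i + α u - α u) + β v
        rw [add_sub_cancel_right, Equiv.apply_symm_apply]
      rw [h1]
      constructor
      · intro h
        rw [Prod.mk.injEq] at h
        obtain ⟨h2, h3⟩ := h
        rw [h2] at h3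
        exact Prod.ext h2 (add_right_cancel h3)
      · rintro rfl
        rfl

theorem cut_eq_zero {x : Fin n × Fin n → Equiv.Perm (Fin q)}
    {S : Finset ((Fin n ⊕ Fin n) × Fin q)} :
    cut (lift x) S = 0 ↔ ∀ (e : Fin n × Fin n) (i : Fin q),
      (Sum.inl e.1, i) ∈ S ↔ (Sum.inr e.2, x e i) ∈ S := by
  have h0 : cut (lift x) S = 0 ↔ ∀ a b, a ∈ S → (lift x).Adj a b → b ∈ S := by
    unfold cut
    rw [Nat.card_eq_zero]
    constructor
    · rintro (h | h) a b ha hab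
      · by_contra hb
        exact h.false ⟨(a, b), ha, hb, hab⟩
      · exact absurd (inferInstance : Finite _) (not_finite_iff_infinite.2 h)
    · intro h
      exact Or.inl ⟨fun p => p.2.2.1 (h _ _ p.2.1 p.2.2.2)⟩
  rw [h0]
  constructor
  · intro h e i
    constructor
    · intro hi
      exact h _ _ hi (lift_adj_inl.2 ⟨e.2, rfl⟩)
    · intro hi
      refine h _ _ hi (lift_adj_inr.2 ⟨e.1, ?_⟩)
      show (Sum.inl e.1, i) = (Sum.inl e.1, (x (e.1, e.2)).symm (x e i))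
      rw [Prod.mk.eta, Equiv.symm_apply_apply]
  · intro h a b ha hab
    obtain ⟨u | v, i⟩ := a
    · obtain ⟨v, rfl⟩ := lift_adj_inl.1 hab
      exact (h (u, v) i).1 ha
    · obtain ⟨u, rfl⟩ := lift_adj_inr.1 hab
      refine (h (u, v) _).2 ?_
      show (Sum.inr v, x (u, v) ((x (u, v)).symm i)) ∈ S
      rw [Equiv.apply_symm_apply]
      exact ha

theorem card_sets (n q k : ℕ) :
    Fintype.card {S : Finset ((Fin n ⊕ Fin n) × Fin q) // S.card = k} =
      (2 * n * q).choose k := by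
  rw [Fintype.card_finset_len, Fintype.card_prod, Fintype.card_sum, Fintype.card_fin,
    Fintype.card_fin, two_mul]

/-- The trivial network. -/
theorem upper_sse_net (hn : 1 ≤ n) (k : ℕ) :
    ∃ (W : Type) (_ : Fintype W) (T : Net ℚ (Fin n × Fin n) (Equiv.Perm (Fin q)) W)
      (c : W → ℚ), Fintype.card W = (2 * n * q).choose k ∧
      T.Linear ∧ (∀ e, T.reads e = 1) ∧ T.size = 2 * n ^ 2 - 1 ∧
        ∀ x, T.value c x ≠ 0 ↔ SomeClosed (lift x) k := by
  classical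
  have : Nonempty (Fin n) := ⟨⟨0, hn⟩⟩
  obtain ⟨T, h1, h2, h3, h4⟩ := exists_product (K := ℚ)
    (fun (e : Fin n × Fin n) (π : Equiv.Perm (Fin q))
        (S : {S : Finset ((Fin n ⊕ Fin n) × Fin q) // S.card = k}) =>
      if ∀ i : Fin q, (Sum.inl e.1, i) ∈ S.1 ↔ (Sum.inr e.2, π i) ∈ S.1 then (1 : ℚ) else 0)
  refine ⟨{S : Finset ((Fin n ⊕ Fin n) × Fin q) // S.card = k}, inferInstance, T, fun _ => 1,
    card_sets n q k, h1, h2, ?_, fun x => ?_⟩
  · rw [h3, Fintype.card_prod, Fintype.card_fin, sq]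
  · have h5 : ∀ s : {S : Finset ((Fin n ⊕ Fin n) × Fin q) // S.card = k},
        0 ≤ T.eval x s ∧ (T.eval x s ≠ 0 ↔ cut (lift x) s.1 = 0) := by
      intro s
      rw [h4, cut_eq_zero]
      refine ⟨prod_nonneg fun e _ => by split_ifs <;> norm_num, ?_⟩
      rw [prod_ne_zero_iff]
      constructor
      · intro h e
        by_contra hcon
        exact h e (mem_univ _) (if_neg hcon)
      · intro h e _
        rw [if_pos (h e)]
        exact one_ne_zero
    unfold Net.value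
    rw [Ne, sum_eq_zero_iff_of_nonneg (fun k _ => by
      rw [one_mul]
      exact (h5 k).1)]
    push Not
    constructor
    · rintro ⟨s, -, hs⟩
      rw [one_mul] at hs
      exact ⟨s.1, s.2, (h5 s).2.1 hs⟩
    · rintro ⟨S, hS, h⟩
      refine ⟨⟨S, hS⟩, mem_univ _, ?_⟩
      rw [one_mul]
      exact (h5 ⟨S, hS⟩).2.2 h

end Pool.Agent.H16DG
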