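import Pool.Agent.H16DG.Sse

/-!
# Every lift has a set of small expansion
-/

set_option autoImplicit false

open Finset

namespace Pool.Agent.H16DG

open Pool.Agent.U20.DG (lift cut SomeClosed lift_adj_inl lift_adj_inr)

variable {n q : ℕ}

/-- The indicator of the first `m` layers. -/
noncomputable def first (q m : ℕ) (i : Fin q) : ℝ := if i.val < m then 1 else 0

theorem card_first {q m : ℕ} (hm : m ≤ q) :
    (univ.filter fun i : Fin q => i.val < m).card = m := by
  have h1 : (univ.filter fun i : Fin q => i.val < m) =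
      (univ : Finset (Fin m)).map (Fin.castLEEmb hm) := by
    ext i
    rw [mem_filter, mem_map]
    constructor
    · rintro ⟨-, hi⟩
      exact ⟨⟨i.val, hi⟩, mem_univ _, Fin.ext rfl⟩
    · rintro ⟨j, -, rfl⟩
      exact ⟨mem_univ _, j.2⟩
  rw [h1, card_map, card_univ, Fintype.card_fin]

theorem sum_first {q m : ℕ} (hm : m ≤ q) : ∑ i : Fin q, first q m i = m := by
  unfold first
  rw [sum_boole, card_first hm]

/-- The first `m` layers on the left side, shifted ones on the right side. -/
def test [NeZero q] (n m : ℕ) (s : Fin q) : Finset ((Fin n ⊕ Fin n) × Fin q) :=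
  univ.filter fun a => (Sum.elim (fun _ => a.2) (fun _ => s - a.2) a.1 : Fin q).val < m

theorem card_test [NeZero q] {m : ℕ} (hm : m ≤ q) (s : Fin q) :
    (test n m s).card = 2 * (n * m) := by
  have h1 : left (test n m s) = univ ×ˢ univ.filter fun i : Fin q => i.val < m := by
    ext p
    rw [mem_left, mem_product, mem_filter]
    unfold test
    rw [mem_filter]
    simp
  have h2 : right (test n m s) = univ ×ˢ univ.filter fun i : Fin q => (s - i).val < m := by
    ext p
    rw [mem_right, mem_product, mem_filter]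
    unfold test
    rw [mem_filter]
    simp
  have h3 : (univ.filter fun i : Fin q => (s - i).val < m).card = m := by
    refine Eq.trans ?_ (card_first hm)
    exact card_equiv (Equiv.subLeft s) fun i => by
      rw [mem_filter, mem_filter]
      exact Iff.and (iff_of_true (mem_univ _) (mem_univ _)) Iff.rfl
  rw [← card_sides, h1, h2, card_product, card_product, card_first hm, h3, card_univ,
    Fintype.card_fin]
  ring

/-- The number of edges which leave a set of vertices. -/
theorem cut_le (x : Fin n × Fin n → Equiv.Perm (Fin q))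
    (S : Finset ((Fin n ⊕ Fin n) × Fin q)) :
    cut (lift x) S ≤ (univ.filter fun p : (Fin n × Fin n) × Fin q =>
        (Sum.inl p.1.1, p.2) ∈ S ∧ (Sum.inr p.1.2, x p.1 p.2) ∉ S).card +
      (univ.filter fun p : (Fin n × Fin n) × Fin q =>
        (Sum.inl p.1.1, p.2) ∉ S ∧ (Sum.inr p.1.2, x p.1 p.2) ∈ S).card := by
  classical
  unfold cut
  rw [Nat.card_eq_fintype_card, Fintype.card_subtype, ← card_disjSum]
  refine card_le_card_of_injOn (fun p => match p with
    | (⟨Sum.inl u, i⟩, ⟨Sum.inr v, _⟩) => Sum.inl ((u, v), i)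
    | (⟨Sum.inr v, _⟩, ⟨Sum.inl u, i⟩) => Sum.inr ((u, v), i)
    | (⟨Sum.inl u, i⟩, ⟨Sum.inl v, _⟩) => Sum.inl ((u, v), i)
    | (⟨Sum.inr v, j⟩, ⟨Sum.inr u, _⟩) => Sum.inr ((u, v), j)) (fun p hp => ?_)
    (fun p hp p' hp' h => ?_)
  · rw [mem_coe, mem_filter] at hp
    obtain ⟨⟨u | v, i⟩, b⟩ := p
    · obtain ⟨v, hv⟩ := lift_adj_inl.1 hp.2.2.2
      dsimp only at hv
      subst hv
      rw [mem_coe, mem_disjSum]
      exact Or.inl ⟨((u, v), i), mem_filter.2 ⟨mem_univ _, hp.2.1, hp.2.2.1⟩, rfl⟩
    · obtain ⟨u, hu⟩ := lift_adj_inr.1 hp.2.2.2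
      dsimp only at hu
      subst hu
      rw [mem_coe, mem_disjSum]
      refine Or.inr ⟨((u, v), (x (u, v)).symm i), mem_filter.2 ⟨mem_univ _, hp.2.2.1, ?_⟩, rfl⟩
      show (Sum.inr v, x (u, v) ((x (u, v)).symm i)) ∈ S
      rw [Equiv.apply_symm_apply]
      exact hp.2.1
  · rw [mem_coe, mem_filter] at hp hp'
    obtain ⟨⟨u | v, i⟩, b⟩ := p
    · obtain ⟨v, hv⟩ := lift_adj_inl.1 hp.2.2.2
      dsimp only at hv
      subst hv
      obtain ⟨⟨u' | v', i'⟩, b'⟩ := p'
      · obtain ⟨v', hv'⟩ := lift_adj_inl.1 hp'.2.2.2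
        dsimp only at hv'
        subst hv'
        simp only [Sum.inl.injEq, Prod.mk.injEq] at h
        obtain ⟨⟨rfl, rfl⟩, rfl⟩ := h
        rfl
      · obtain ⟨u', hu'⟩ := lift_adj_inr.1 hp'.2.2.2
        dsimp only at hu'
        subst hu'
        simp at h
    · obtain ⟨u, hu⟩ := lift_adj_inr.1 hp.2.2.2
      dsimp only at hu
      subst hu
      obtain ⟨⟨u' | v', i'⟩, b'⟩ := p'
      · obtain ⟨v', hv'⟩ := lift_adj_inl.1 hp'.2.2.2
        dsimp only at hv'
        subst hv'
        simp at h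
      · obtain ⟨u', hu'⟩ := lift_adj_inr.1 hp'.2.2.2
        dsimp only at hu'
        subst hu'
        simp only [Sum.inr.injEq, Prod.mk.injEq] at h
        obtain ⟨⟨rfl, rfl⟩, h⟩ := h
        have h1 := (x (u, v)).symm.injective h
        rw [h1]

/-- Every lift has a set of `2 n m` vertices with expansion at most `1 - m / q`. -/
theorem exists_set [NeZero q] (x : Fin n × Fin n → Equiv.Perm (Fin q)) {m : ℕ} (hm : m ≤ q) :
    ∃ S : Finset ((Fin n ⊕ Fin n) × Fin q), S.card = 2 * (n * m) ∧
      (cut (lift x) S : ℝ) ≤ (1 - (m : ℝ) / q) * (n * S.card) := by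
  classical
  have hq0 : (0 : ℝ) < q := by exact_mod_cast Nat.pos_of_ne_zero (NeZero.ne q)
  have h1 : ∀ s : Fin q, (cut (lift x) (test n m s) : ℝ) ≤
      ∑ p : (Fin n × Fin n) × Fin q, (first q m p.2 * (1 - first q m (s - x p.1 p.2)) +
        (1 - first q m p.2) * first q m (s - x p.1 p.2)) := by
    intro s
    refine (Nat.cast_le.2 (cut_le x (test n m s))).trans (le_of_eq ?_)
    push_cast
    rw [card_filter, card_filter]
    push_cast
    rw [← sum_add_distrib]
    refine sum_congr rfl fun p _ => ?_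
    unfold test first
    simp only [mem_filter, mem_univ, true_and, Sum.elim_inl, Sum.elim_inr]
    by_cases h2 : p.2.val < m <;> by_cases h3 : (s - x p.1 p.2).val < m <;> simp [h2, h3]
  have h2 : ∑ s : Fin q, ∑ p : (Fin n × Fin n) × Fin q,
      (first q m p.2 * (1 - first q m (s - x p.1 p.2)) +
        (1 - first q m p.2) * first q m (s - x p.1 p.2)) =
      2 * ((n : ℝ) * n * m * (q - m)) := by
    rw [sum_comm]
    have h3 : ∀ y : Fin q, ∑ s : Fin q, first q m (s - y) = m := by
      intro y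
      rw [← sum_first hm]
      exact Equiv.sum_comp (Equiv.subRight y) (first q m)
    have h4 : ∀ p : (Fin n × Fin n) × Fin q, ∑ s : Fin q,
        (first q m p.2 * (1 - first q m (s - x p.1 p.2)) +
          (1 - first q m p.2) * first q m (s - x p.1 p.2)) =
        first q m p.2 * (q - m) + (1 - first q m p.2) * m := by
      intro p
      rw [sum_add_distrib, ← mul_sum, ← mul_sum, sum_sub_distrib, h3, sum_const, card_univ,
        Fintype.card_fin, nsmul_eq_mul, mul_one]
    rw [sum_congr rfl fun p _ => h4 p, Fintype.sum_prod_type]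
    dsimp only
    have h5 : ∑ i : Fin q, (first q m i * ((q : ℝ) - m) + (1 - first q m i) * m) =
        2 * (m * (q - m)) := by
      rw [sum_add_distrib, ← sum_mul, ← sum_mul, sum_sub_distrib, sum_first hm, sum_const,
        card_univ, Fintype.card_fin, nsmul_eq_mul, mul_one]
      ring
    rw [h5, sum_const, card_univ, Fintype.card_prod, Fintype.card_fin, nsmul_eq_mul]
    push_cast
    ring
  obtain ⟨s, hs⟩ : ∃ s : Fin q, (q : ℝ) * cut (lift x) (test n m s) ≤
      2 * ((n : ℝ) * n * m * (q - m)) := by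
    by_contra hcon
    push Not at hcon
    have : Nonempty (Fin q) := ⟨0⟩
    have h3 := sum_lt_sum_of_nonempty (univ_nonempty (α := Fin q)) fun s _ => hcon s
    rw [sum_const, card_univ, Fintype.card_fin, nsmul_eq_mul, ← mul_sum] at h3
    have h4 := sum_le_sum fun (s : Fin q) (_ : s ∈ univ) => h1 s
    rw [h2] at h4
    have h5 := lt_of_mul_lt_mul_left h3 hq0.le
    linarith
  refine ⟨test n m s, card_test hm s, ?_⟩
  rw [card_test hm s]
  push_cast
  have h3 : (1 - (m : ℝ) / q) * (n * (2 * ((n : ℝ) * m))) =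
      2 * ((n : ℝ) * n * m * (q - m)) / q := by
    field_simp
  rw [h3, le_div_iff₀ hq0]
  linarith

/-- No lift has large expansion. -/
theorem not_expanding [NeZero q] {m : ℕ} (hn : 1 ≤ n) (hm : 1 ≤ m) (hmq : m ≤ q) {c : ℝ}
    (hc : 1 - (m : ℝ) / q < c) (x : Fin n × Fin n → Equiv.Perm (Fin q)) :
    ¬ Expanding c (lift x) n (2 * (n * m)) := by
  intro h
  obtain ⟨S, hS, h1⟩ := exists_set x hmq
  have h2 := (h S hS).trans h1
  rw [hS] at h2
  have h3 : (0 : ℝ) < n * ((2 * (n * m) : ℕ) : ℝ) := by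
    have e1 : (0 : ℝ) < n := by exact_mod_cast hn
    have e2 : (0 : ℝ) < m := by exact_mod_cast hm
    push_cast
    positivity
  have h4 := le_of_mul_le_mul_right h2 h3
  linarith

end Pool.Agent.H16DG
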