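import Pool.Agent.H16DG.Val

/-!
# Mixtures of relabelings of a lift: edges inside small sets
-/

set_option autoImplicit false

open Finset

namespace Pool.Agent.H16DG

open Pool.Agent.H16UG (av av_mono av_const av_mul av_sub card_mul_av sq_av_le BD tail)

variable {A : Type} [AddCommGroup A] [Fintype A] [DecidableEq A]

/-- The indicator of an edge of the mixture. -/
noncomputable def ind {n t : ℕ} (κ : Fin n → Fin n → Fin t) (w : Fin n → Fin n → A → A)
    (F : Fin t × Fin n → A × A) (p r : Fin n × A) : ℝ :=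
  if w p.1 r.1 (p.2 - (F (κ p.1 r.1, p.1)).1) = r.2 - (F (κ p.1 r.1, r.1)).2 then 1 else 0

/-- The number of edges of the mixture between two sets. -/
noncomputable def cntS {n t : ℕ} (κ : Fin n → Fin n → Fin t) (w : Fin n → Fin n → A → A)
    (F : Fin t × Fin n → A × A) (s : Finset (Fin n × A) × Finset (Fin n × A)) : ℝ :=
  ∑ p ∈ s.1, ∑ r ∈ s.2, ind κ w F p r

/-- The pairs of sets with at most `2 k` elements together. -/
def fam (n k : ℕ) (A : Type) [Fintype A] [DecidableEq A] :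
    Finset (Finset (Fin n × A) × Finset (Fin n × A)) :=
  univ.filter fun s => s.1.card + s.2.card ≤ 2 * k

omit [AddCommGroup A] in
theorem fam_nonempty (n k : ℕ) : (fam n k A).Nonempty :=
  ⟨(∅, ∅), by unfold fam; simp⟩

/-- The maximum over all such pairs. -/
noncomputable def mS {n t : ℕ} (k : ℕ) (κ : Fin n → Fin n → Fin t) (w : Fin n → Fin n → A → A)
    (F : Fin t × Fin n → A × A) : ℝ :=
  (fam n k A).sup' (fam_nonempty n k) (cntS κ w F)

theorem cntS_le_mS {n t k : ℕ} (κ : Fin n → Fin n → Fin t) (w : Fin n → Fin n → A → A)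
    (F : Fin t × Fin n → A × A) {s : Finset (Fin n × A) × Finset (Fin n × A)}
    (hs : s.1.card + s.2.card ≤ 2 * k) : cntS κ w F s ≤ mS k κ w F :=
  le_sup' (cntS κ w F) (by unfold fam; rw [mem_filter]; exact ⟨mem_univ _, hs⟩)

theorem ind_nonneg {n t : ℕ} (κ : Fin n → Fin n → Fin t) (w : Fin n → Fin n → A → A)
    (F : Fin t × Fin n → A × A) (p r : Fin n × A) : 0 ≤ ind κ w F p r := by
  unfold ind
  split_ifs <;> norm_num

theorem ind_le_one {n t : ℕ} (κ : Fin n → Fin n → Fin t) (w : Fin n → Fin n → A → A)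
    (F : Fin t × Fin n → A × A) (p r : Fin n × A) : ind κ w F p r ≤ 1 := by
  unfold ind
  split_ifs <;> norm_num

theorem ind_left {n t : ℕ} (κ : Fin n → Fin n → Fin t) (w : Fin n → Fin n → A → A)
    (hw : ∀ u v y, fib (w u v) y ≤ 1) (F : Fin t × Fin n → A × A) (i : Fin n) (r : Fin n × A)
    (S : Finset (Fin n × A)) :
    ∑ p ∈ S, (if p.1 = i then ind κ w F p r else 0) ≤ 1 := by
  calc ∑ p ∈ S, (if p.1 = i then ind κ w F p r else 0) ≤
        ∑ p : Fin n × A, (if p.1 = i then ind κ w F p r else 0) := by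
        refine sum_le_sum_of_subset_of_nonneg (subset_univ _) fun p _ _ => ?_
        split_ifs
        · exact ind_nonneg _ _ _ _ _
        · exact le_refl _
    _ = ∑ x : A, ind κ w F (i, x) r := by
        rw [Fintype.sum_prod_type]
        have h1 : ∀ u : Fin n, ∑ x : A, (if u = i then ind κ w F (u, x) r else 0) =
            if u = i then ∑ x : A, ind κ w F (u, x) r else 0 := by
          intro u
          split_ifs
          · rfl
          · exact sum_const_zero
        dsimp only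
        rw [sum_congr rfl fun u _ => h1 u, sum_ite_eq' univ i, if_pos (mem_univ _)]
    _ = ∑ x : A, (if w i r.1 x = r.2 - (F (κ i r.1, r.1)).2 then (1 : ℝ) else 0) := by
        exact Equiv.sum_comp (Equiv.subRight (F (κ i r.1, i)).1)
          fun x => (if w i r.1 x = r.2 - (F (κ i r.1, r.1)).2 then (1 : ℝ) else 0)
    _ = (fib (w i r.1) (r.2 - (F (κ i r.1, r.1)).2) : ℝ) := by
        unfold fib
        rw [card_filter, Nat.cast_sum]
        exact sum_congr rfl fun x _ => by push_cast; rfl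
    _ ≤ 1 := by exact_mod_cast hw _ _ _

theorem ind_right {n t : ℕ} (κ : Fin n → Fin n → Fin t) (w : Fin n → Fin n → A → A)
    (F : Fin t × Fin n → A × A) (i : Fin n) (p : Fin n × A) (T : Finset (Fin n × A)) :
    ∑ r ∈ T, (if r.1 = i then ind κ w F p r else 0) ≤ 1 := by
  calc ∑ r ∈ T, (if r.1 = i then ind κ w F p r else 0) ≤
        ∑ r : Fin n × A, (if r.1 = i then ind κ w F p r else 0) := by
        refine sum_le_sum_of_subset_of_nonneg (subset_univ _) fun r _ _ => ?_
        split_ifs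
        · exact ind_nonneg _ _ _ _ _
        · exact le_refl _
    _ = ∑ y : A, ind κ w F p (i, y) := by
        rw [Fintype.sum_prod_type]
        have h1 : ∀ u : Fin n, ∑ x : A, (if u = i then ind κ w F p (u, x) else 0) =
            if u = i then ∑ x : A, ind κ w F p (u, x) else 0 := by
          intro u
          split_ifs
          · rfl
          · exact sum_const_zero
        dsimp only
        rw [sum_congr rfl fun u _ => h1 u, sum_ite_eq' univ i, if_pos (mem_univ _)]
    _ = ∑ y : A, (if w p.1 i (p.2 - (F (κ p.1 i, p.1)).1) = y then (1 : ℝ) else 0) := by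
        exact Equiv.sum_comp (Equiv.subRight (F (κ p.1 i, i)).2)
          fun y => (if w p.1 i (p.2 - (F (κ p.1 i, p.1)).1) = y then (1 : ℝ) else 0)
    _ = 1 := by rw [sum_ite_eq univ _, if_pos (mem_univ _)]
    _ ≤ 1 := le_refl _

theorem cntS_step {n t k : ℕ} (κ : Fin n → Fin n → Fin t) (w : Fin n → Fin n → A → A)
    (hw : ∀ u v y, fib (w u v) y ≤ 1) (i : Fin t × Fin n) (x y : Fin t × Fin n → A × A)
    (hxy : ∀ j, j ≠ i → x j = y j) {s : Finset (Fin n × A) × Finset (Fin n × A)}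
    (hs : s.1.card + s.2.card ≤ 2 * k) :
    cntS κ w x s ≤ cntS κ w y s + 2 * k := by
  have h1 : ∀ p r : Fin n × A, ind κ w x p r - ind κ w y p r ≤
      (if p.1 = i.2 then ind κ w x p r else 0) + (if r.1 = i.2 then ind κ w x p r else 0) := by
    intro p r
    have e0 := ind_nonneg κ w x p r
    have e1 := ind_nonneg κ w y p r
    by_cases hu : p.1 = i.2
    · rw [if_pos hu]
      split_ifs <;> linarith
    · by_cases hv : r.1 = i.2
      · rw [if_neg hu, if_pos hv]
        linarith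
      · have e2 : ind κ w x p r = ind κ w y p r := by
          unfold ind
          rw [hxy (κ p.1 r.1, p.1) fun h => hu (congrArg Prod.snd h),
            hxy (κ p.1 r.1, r.1) fun h => hv (congrArg Prod.snd h)]
        rw [if_neg hu, if_neg hv, e2]
        linarith
  have h2 : cntS κ w x s - cntS κ w y s ≤
      ∑ p ∈ s.1, ∑ r ∈ s.2, ((if p.1 = i.2 then ind κ w x p r else 0) +
        (if r.1 = i.2 then ind κ w x p r else 0)) := by
    unfold cntS
    rw [← sum_sub_distrib]
    refine sum_le_sum fun p _ => ?_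
    rw [← sum_sub_distrib]
    exact sum_le_sum fun r _ => h1 p r
  have h3 : ∑ p ∈ s.1, ∑ r ∈ s.2, ((if p.1 = i.2 then ind κ w x p r else 0) +
      (if r.1 = i.2 then ind κ w x p r else 0)) ≤ (s.2.card : ℝ) + s.1.card := by
    have e1 : ∑ p ∈ s.1, ∑ r ∈ s.2, ((if p.1 = i.2 then ind κ w x p r else 0) +
        (if r.1 = i.2 then ind κ w x p r else 0)) =
        (∑ r ∈ s.2, ∑ p ∈ s.1, (if p.1 = i.2 then ind κ w x p r else 0)) +
          ∑ p ∈ s.1, ∑ r ∈ s.2, (if r.1 = i.2 then ind κ w x p r else 0) := by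
      rw [sum_comm (s := s.2) (t := s.1), ← sum_add_distrib]
      exact sum_congr rfl fun p _ => sum_add_distrib
    rw [e1]
    refine add_le_add ?_ ?_
    · refine (sum_le_sum fun r _ => ind_left κ w hw x i.2 r s.1).trans (le_of_eq ?_)
      rw [sum_const, nsmul_eq_mul, mul_one]
    · refine (sum_le_sum fun p _ => ind_right κ w x i.2 p s.2).trans (le_of_eq ?_)
      rw [sum_const, nsmul_eq_mul, mul_one]
  have h4 : (s.1.card : ℝ) + s.2.card ≤ 2 * k := by exact_mod_cast hs
  linarith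

theorem mS_bd {n t : ℕ} (k : ℕ) (κ : Fin n → Fin n → Fin t) (w : Fin n → Fin n → A → A)
    (hw : ∀ u v y, fib (w u v) y ≤ 1) :
    BD (mS k κ w : (Fin t × Fin n → A × A) → ℝ) (2 * k) := by
  have h1 : ∀ (i : Fin t × Fin n) (x y : Fin t × Fin n → A × A), (∀ j, j ≠ i → x j = y j) →
      mS k κ w x ≤ mS k κ w y + 2 * k := by
    intro i x y hxy
    refine sup'_le _ _ fun s hs => ?_
    unfold fam at hs
    rw [mem_filter] at hs
    have := cntS_step κ w hw i x y hxy hs.2
    have := cntS_le_mS κ w y hs.2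
    linarith
  intro i x y hxy
  rw [abs_le]
  have h2 := h1 i x y hxy
  have h3 := h1 i y x fun j hj => (hxy j hj).symm
  constructor <;> linarith

/-- The number of edges is the bilinear form of the kernel, up to the mean. -/
theorem cntS_le {n t k : ℕ} (κ : Fin n → Fin n → Fin t) (w : Fin n → Fin n → A → A)
    (hw : ∀ u v y, fib (w u v) y ≤ 1) (F : Fin t × Fin n → A × A)
    {s : Finset (Fin n × A) × Finset (Fin n × A)} (hs : s.1.card + s.2.card ≤ 2 * k) :
    cntS κ w F s ≤ (∑ p : Fin n × A, ∑ r : Fin n × A, (if p ∈ s.1 then (1 : ℝ) else 0) *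
      (if r ∈ s.2 then (1 : ℝ) else 0) * K κ w F p r) +
        1 / (Fintype.card A : ℝ) * (k : ℝ) ^ 2 := by
  have h1 : ∑ p : Fin n × A, ∑ r : Fin n × A, (if p ∈ s.1 then (1 : ℝ) else 0) *
      (if r ∈ s.2 then (1 : ℝ) else 0) * K κ w F p r = ∑ p ∈ s.1, ∑ r ∈ s.2, K κ w F p r := by
    have e1 : ∀ p : Fin n × A, ∑ r : Fin n × A, (if p ∈ s.1 then (1 : ℝ) else 0) *
        (if r ∈ s.2 then (1 : ℝ) else 0) * K κ w F p r =
        if p ∈ s.1 then ∑ r ∈ s.2, K κ w F p r else 0 := by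
      intro p
      split_ifs with hp
      · rw [← sum_filter_add_sum_filter_not univ (fun r => r ∈ s.2)]
        have e2 : univ.filter (fun r => r ∈ s.2) = s.2 := by
          ext r
          simp
        rw [e2]
        have e3 : ∑ r ∈ s.2, (1 : ℝ) * (if r ∈ s.2 then (1 : ℝ) else 0) * K κ w F p r =
            ∑ r ∈ s.2, K κ w F p r := by
          refine sum_congr rfl fun r hr => ?_
          rw [if_pos hr]
          ring
        have e4 : ∑ r ∈ univ.filter (fun r => r ∉ s.2),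
            (1 : ℝ) * (if r ∈ s.2 then (1 : ℝ) else 0) * K κ w F p r = 0 := by
          refine sum_eq_zero fun r hr => ?_
          rw [mem_filter] at hr
          rw [if_neg hr.2]
          ring
        rw [e3, e4, add_zero]
      · refine sum_eq_zero fun r _ => ?_
        ring
    rw [sum_congr rfl fun p _ => e1 p, ← sum_filter]
    refine sum_congr ?_ fun _ _ => rfl
    ext p
    simp
  rw [h1]
  have hA := cardA_pos (A := A)
  have h2 : (s.1.card : ℝ) * s.2.card ≤ (k : ℝ) ^ 2 := by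
    have e1 : (s.1.card : ℝ) + s.2.card ≤ 2 * k := by exact_mod_cast hs
    have e2 : (0 : ℝ) ≤ s.1.card := Nat.cast_nonneg _
    have e3 : (0 : ℝ) ≤ s.2.card := Nat.cast_nonneg _
    nlinarith [sq_nonneg ((s.1.card : ℝ) - s.2.card)]
  have h3 : ∑ _p ∈ s.1, ∑ _r ∈ s.2, 1 / (Fintype.card A : ℝ) ≤
      1 / (Fintype.card A : ℝ) * (k : ℝ) ^ 2 := by
    rw [sum_const, sum_const, nsmul_eq_mul, nsmul_eq_mul, ← mul_assoc, mul_comm]
    exact mul_le_mul_of_nonneg_left h2 (by positivity)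
  refine le_trans ?_ (add_le_add_right h3 _)
  rw [← sum_add_distrib]
  unfold cntS
  refine sum_le_sum fun p _ => ?_
  rw [← sum_add_distrib]
  refine sum_le_sum fun r _ => ?_
  have h4 : (fib (w p.1 r.1) (r.2 - (F (κ p.1 r.1, r.1)).2) : ℝ) / (Fintype.card A : ℝ) ≤
      1 / (Fintype.card A : ℝ) := by
    refine div_le_div_of_nonneg_right ?_ (Nat.cast_nonneg _)
    exact_mod_cast hw _ _ _
  unfold ind K g
  linarith

theorem sum_mem {X : Type} [Fintype X] [DecidableEq X] (S : Finset X) :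
    ∑ p : X, (if p ∈ S then (1 : ℝ) else 0) ^ 2 = S.card := by
  have h1 : ∀ p : X, (if p ∈ S then (1 : ℝ) else 0) ^ 2 = if p ∈ S then 1 else 0 := by
    intro p
    split_ifs <;> norm_num
  rw [sum_congr rfl fun p _ => h1 p, sum_boole]
  congr 2
  ext p
  simp

/-- The mean of the maximum. -/
theorem av_mS {n t : ℕ} (k : ℕ) (κ : Fin n → Fin n → Fin t) (w : Fin n → Fin n → A → A)
    (hw : ∀ u v y, fib (w u v) y ≤ 1) (M : ℕ)
    (hM : ∀ k, (univ.filter (fun e : Fin n × Fin n => κ e.1 e.2 = k)).card ≤ M) {ρ : ℝ}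
    (hρ : 0 ≤ ρ) (h1 : 8 * (Fintype.card A : ℝ) * (1 : ℕ) *
      ((n : ℝ) ^ 2 * M + 2 * (n : ℝ) ^ 3) ≤ (n : ℝ) ^ 4 * ρ ^ 4) :
    av (mS k κ w : (Fin t × Fin n → A × A) → ℝ) ≤
      1 / (Fintype.card A : ℝ) * (k : ℝ) ^ 2 + ρ * (n * k) := by
  obtain ⟨q, hq⟩ : ∃ q : ℝ, q = 1 / (Fintype.card A : ℝ) * (k : ℝ) ^ 2 := ⟨_, rfl⟩
  obtain ⟨φ, hφ⟩ : ∃ φ : (Fin t × Fin n → A × A) → ℝ, φ = fun F => max (mS k κ w F - q) 0 :=
    ⟨_, rfl⟩
  have h2 : ∀ F : Fin t × Fin n → A × A, φ F ^ 4 ≤ (k : ℝ) ^ 4 * cyc κ w F := by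
    intro F
    obtain ⟨s, hs0, hs⟩ := exists_mem_eq_sup' (fam_nonempty (A := A) n k) (cntS κ w F)
    unfold fam at hs0
    rw [mem_filter] at hs0
    have h3 : mS k κ w F = cntS κ w F s := hs
    have h4 := cntS_le κ w hw F hs0.2
    rw [← hq, ← h3] at h4
    have h5 := form_four (K κ w F) (fun p : Fin n × A => if p ∈ s.1 then (1 : ℝ) else 0)
      (fun r : Fin n × A => if r ∈ s.2 then (1 : ℝ) else 0)
    rw [sum_mem, sum_mem] at h5
    have h6 : (s.1.card : ℝ) ^ 2 * (s.2.card : ℝ) ^ 2 ≤ (k : ℝ) ^ 4 := by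
      have e1 : (s.1.card : ℝ) + s.2.card ≤ 2 * k := by exact_mod_cast hs0.2
      have e2 : (0 : ℝ) ≤ s.1.card := Nat.cast_nonneg _
      have e3 : (0 : ℝ) ≤ s.2.card := Nat.cast_nonneg _
      have e4 : (s.1.card : ℝ) * s.2.card ≤ (k : ℝ) ^ 2 := by
        nlinarith [sq_nonneg ((s.1.card : ℝ) - s.2.card)]
      calc (s.1.card : ℝ) ^ 2 * (s.2.card : ℝ) ^ 2 = ((s.1.card : ℝ) * s.2.card) ^ 2 := by ring
        _ ≤ ((k : ℝ) ^ 2) ^ 2 := pow_le_pow_left₀ (by positivity) e4 2
        _ = _ := by ring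
    have h7 : 0 ≤ cyc κ w F := by
      have e1 := form_four (K κ w F) (fun p : Fin n × A => if p = p then (1 : ℝ) else 0)
        (fun r : Fin n × A => if r = r then (1 : ℝ) else 0)
      by_contra hcon
      push Not at hcon
      have e2 : 0 ≤ (∑ p : Fin n × A, ∑ r : Fin n × A, (if p = p then (1 : ℝ) else 0) *
        (if r = r then (1 : ℝ) else 0) * K κ w F p r) ^ 4 := by positivity
      have e3 := e2.trans e1
      rcases Nat.eq_zero_or_pos n with h0 | h0
      · subst h0
        unfold cyc at hcon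
        simp at hcon
      · have e4 : 0 < (∑ p : Fin n × A, (if p = p then (1 : ℝ) else 0) ^ 2) ^ 2 *
            (∑ r : Fin n × A, (if r = r then (1 : ℝ) else 0) ^ 2) ^ 2 := by
          have e5 : (0 : ℝ) < ∑ p : Fin n × A, (if p = p then (1 : ℝ) else 0) ^ 2 := by
            simp only [if_true, one_pow, sum_const, card_univ, nsmul_eq_mul, mul_one]
            have : Nonempty (Fin n × A) := ⟨(⟨0, h0⟩, 0)⟩
            exact Nat.cast_pos.2 Fintype.card_pos
          positivity
        have e6 : (∑ p : Fin n × A, (if p = p then (1 : ℝ) else 0) ^ 2) ^ 2 *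
            (∑ r : Fin n × A, (if r = r then (1 : ℝ) else 0) ^ 2) ^ 2 * cyc κ w F < 0 :=
          mul_neg_of_pos_of_neg e4 hcon
        unfold cyc at e6
        linarith
    refine le_trans ?_ (mul_le_mul_of_nonneg_right h6 h7)
    refine le_trans ?_ h5
    rw [hφ]
    dsimp only
    rcases le_total (mS k κ w F - q) 0 with h7 | h7
    · rw [max_eq_right h7]
      norm_num
      positivity
    · rw [max_eq_left h7]
      exact pow_le_pow_left₀ h7 (by linarith) 4
  have hZ : (0 : ℝ) < Fintype.card (Fin t × Fin n → A × A) := Nat.cast_pos.2 Fintype.card_pos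
  have h3 : av φ ^ 4 ≤ ((k : ℝ) * n * ρ) ^ 4 := by
    calc av φ ^ 4 = (av φ ^ 2) ^ 2 := by ring
      _ ≤ (av fun F => φ F ^ 2) ^ 2 := pow_le_pow_left₀ (sq_nonneg _) (sq_av_le _) 2
      _ ≤ av fun F => (φ F ^ 2) ^ 2 := sq_av_le _
      _ = av fun F => φ F ^ 4 := by
          congr 1
          funext F
          ring
      _ ≤ av fun F => (k : ℝ) ^ 4 * cyc κ w F := av_mono h2
      _ = (k : ℝ) ^ 4 * av fun F => cyc κ w F := av_mul _ _
      _ ≤ (k : ℝ) ^ 4 *
          (8 * (Fintype.card A : ℝ) * (1 : ℕ) * ((n : ℝ) ^ 2 * M + 2 * (n : ℝ) ^ 3)) := by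
          refine mul_le_mul_of_nonneg_left ?_ (by positivity)
          unfold av
          rw [div_le_iff₀ hZ, mul_comm]
          exact sum_cyc_le κ w hw M hM
      _ ≤ (k : ℝ) ^ 4 * ((n : ℝ) ^ 4 * ρ ^ 4) := mul_le_mul_of_nonneg_left h1 (by positivity)
      _ = _ := by ring
  have h4 : av φ ≤ (k : ℝ) * n * ρ := by
    by_contra hcon
    push Not at hcon
    have h4 := pow_lt_pow_left₀ hcon (by positivity) (n := 4) (by norm_num)
    linarith
  have h5 : av (mS k κ w : (Fin t × Fin n → A × A) → ℝ) - q ≤ av φ := by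
    have h6 : av (fun F : Fin t × Fin n → A × A => mS k κ w F - q) =
        av (mS k κ w : (Fin t × Fin n → A × A) → ℝ) - q := by
      rw [av_sub, av_const]
    rw [← h6]
    refine av_mono fun F => ?_
    rw [hφ]
    exact le_max_left _ _
  rw [← hq]
  linarith

/-- Few mixtures have two sets with many edges. -/
theorem fewS {n t k : ℕ} (hn : 1 ≤ n) (hk : 1 ≤ k) (ht : 1 ≤ t) (κ : Fin n → Fin n → Fin t)
    (w : Fin n → Fin n → A → A) (hw : ∀ u v y, fib (w u v) y ≤ 1) (M : ℕ)
    (hM : ∀ k, (univ.filter (fun e : Fin n × Fin n => κ e.1 e.2 = k)).card ≤ M) {η : ℝ}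
    (hη : 0 < η) (h1 : 8 * (Fintype.card A : ℝ) * (1 : ℕ) *
      ((n : ℝ) ^ 2 * M + 2 * (n : ℝ) ^ 3) ≤ (n : ℝ) ^ 4 * (η / 2) ^ 4)
    (S : Finset (Fin t × Fin n → A × A))
    (hS : ∀ F ∈ S, 1 / (Fintype.card A : ℝ) * (k : ℝ) ^ 2 + η * (n * k) ≤ mS k κ w F) :
    (S.card : ℝ) * Real.exp (η ^ 2 * n / (32 * t)) ≤
      Fintype.card (Fin t × Fin n → A × A) := by
  have h2 := av_mS k κ w hw M hM (by positivity) h1
  have hn' : (0 : ℝ) < n := by exact_mod_cast hn
  have hk' : (0 : ℝ) < k := by exact_mod_cast hk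
  have ht' : (0 : ℝ) < t := by exact_mod_cast ht
  have h3 := tail (l := η / (8 * k * t)) (s := η / 2 * (n * (k : ℝ))) (by positivity)
    (mS_bd k κ w hw) S (fun F hF => by
      have := hS F hF
      have e1 : η / 2 * (n * (k : ℝ)) + η / 2 * (n * (k : ℝ)) = η * (n * (k : ℝ)) := by ring
      linarith)
  have h4 : (η / (8 * k * t)) ^ 2 * (2 * (k : ℝ)) ^ 2 / 2 *
      (Fintype.card (Fin t × Fin n) : ℝ) - η / (8 * k * t) * (η / 2 * (n * (k : ℝ))) =
        -(η ^ 2 * n / (32 * t)) := by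
    rw [Fintype.card_prod, Fintype.card_fin, Fintype.card_fin]
    push_cast
    field_simp
    ring
  rw [h4, Real.exp_neg, ← div_eq_mul_inv, le_div_iff₀ (Real.exp_pos _)] at h3
  exact h3

end Pool.Agent.H16DG
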